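import Pool.Agent.P.MP_dbfd73_lc.Ramsey

/-!
The density arguments for the forcing with branches.
-/

universe u

namespace Pool.Agent.P.MP_dbfd73_lc

open Filter Set ZFSet Pool.Agent.Lib.Forcing

variable {f g : ℕ → ZFSet.{u}}

def Down (S : Set (ℕ → ZFSet.{u})) : Prop := ∀ f g, Br f → Br g → BLe f g → g ∈ S → f ∈ S

def Yes (F : Filter ℕ) (S : Set (ℕ → ZFSet.{u})) : Prop :=
  ∀ h, Br h → (cond h).F ≤ F → ∃ h', Br h' ∧ BLe h' h ∧ h' ∈ S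

def No (F : Filter ℕ) (S : Set (ℕ → ZFSet.{u})) : Prop := ∀ h, Br h → (cond h).F ≤ F → h ∉ S

theorem Br.yes (hg : Br g) {S : Set (ℕ → ZFSet.{u})} (hS : Down S) (h : g ∈ S) :
    Yes (cond g).F S := by
  intro f hf h1
  obtain ⟨h', h2, h3, h4, -⟩ := hf.exists_le_le hg (q := ⟨(cond f).X ∩ (cond g).X, (cond f).F,
    (cond f).good, inter_mem (cond f).mem (h1 (cond g).mem)⟩) ⟨inter_subset_left, le_rfl⟩
    ⟨inter_subset_right, h1⟩
  exact ⟨h', h2, h3, hS _ _ h2 hg h4 h⟩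

theorem Br.exists_below (hg : Br g) {G : Filter ℕ} (hG : Good G) (h : G ≤ (cond g).F)
    {W : Set ℕ} (hW : W ∈ G) : ∃ f, Br f ∧ BLe f g ∧ (cond f).F ≤ G ∧ (cond f).X ⊆ W := by
  obtain ⟨f, h1, h2, -, h3⟩ := hg.exists_le_le hg (q := ⟨(cond g).X ∩ W, G, hG,
    inter_mem (h (cond g).mem) hW⟩) ⟨inter_subset_left, h⟩ ⟨inter_subset_left, h⟩
  exact ⟨f, h1, h2, h3.2, h3.1.trans inter_subset_right⟩

theorem exists_yes_or_no {ι : Type} [Countable ι] (S : ι → Set (ℕ → ZFSet.{u}))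
    (hS : ∀ i, Down (S i)) {F : Filter ℕ} (hF : Good F) :
    ∃ G, Good G ∧ G ≤ F ∧ ∀ i, Yes G (S i) ∨ No G (S i) := by
  refine exists_good_forall (fun i G => Yes G (S i) ∨ No G (S i)) (fun i F G h H => H.imp
    (fun H f hf h' => H f hf (h'.trans h)) fun H f hf h' => H f hf (h'.trans h)) hF
    fun i G hG _ => ?_
  by_cases h : No G (S i)
  · exact ⟨G, hG, le_rfl, Or.inr h⟩
  · simp only [No, not_forall, not_not] at h
    obtain ⟨f, hf, h1, h2⟩ := h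
    exact ⟨_, (cond f).good, h1, Or.inl (hf.yes (hS i) h2)⟩

theorem Br.exists_pnt (hg : Br g) {x : ℕ} (hx : x ∈ (cond g).X) :
    ∃ f, Br f ∧ BLe f g ∧ pnt f = x := by
  obtain ⟨f, h1, h2, h3, -⟩ := hg.exists_ext0 hx le_rfl (D := fun _ => univ) (fun _ => univ_mem)
    strat_univ
  exact ⟨f, h1, h2, h3⟩

/-- No new reals. -/
theorem core0 (hg : Br g) (S : ℕ → Set (ℕ → ZFSet.{u})) (hS : ∀ n, Down (S n)) :
    ∃ h, Br h ∧ BLe h g ∧ ∀ n, (∀ f, Br f → BLe f h → ∃ f', Br f' ∧ BLe f' f ∧ f' ∈ S n) ∨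
      ∀ f, Br f → BLe f h → f ∉ S n := by
  obtain ⟨G, h1, h2, h3⟩ := exists_yes_or_no S hS (cond g).good
  obtain ⟨h, h4, h5, h6, -⟩ := hg.exists_below h1 h2 univ_mem
  exact ⟨h, h4, h5, fun n => (h3 n).imp (fun H f hf h7 => H f hf (h7.cond.2.trans h6))
    fun H f hf h7 => H f hf (h7.cond.2.trans h6)⟩

/-- Every set of points is decided. -/
theorem core1 (hg : Br g) (Y : Set ℕ) :
    ∃ h, Br h ∧ BLe h g ∧ ((cond h).X ⊆ Y ∨ (cond h).X ⊆ Yᶜ) := by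
  by_cases h : Yᶜ ∈ (cond g).F
  · obtain ⟨f, h1, h2, -, h3⟩ := hg.exists_below (cond g).good le_rfl h
    exact ⟨f, h1, h2, Or.inr h3⟩
  · obtain ⟨f, h1, h2, -, h3⟩ := hg.exists_below ((cond g).good.inf_principal h) inf_le_left
      (mem_inf_of_right (mem_principal_self Y))
    exact ⟨f, h1, h2, Or.inl h3⟩

/-- The density argument against a cofinal map into the Fubini square. -/
theorem core2 (hg : Br g) (S : Set (ℕ × ℕ) → Set ℕ → Set (ℕ → ZFSet.{u}))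
    (hS : ∀ T Y, Down (S T Y)) : ∃ h, Br h ∧ BLe h g ∧
      ((∃ T : Set (ℕ × ℕ), (∀ n, ∃ m0, ∀ m, m0 ≤ m → (n, m) ∈ T) ∧
        ∀ f, Br f → BLe f h → ∀ Y, (cond f).X ⊆ Y → f ∉ S T Y) ∨
      ∃ n, ∀ n', n ≤ n' → ∀ m, ∃ T Y, (n', m) ∉ T ∧ (cond h).X ⊆ Y ∧
        ∀ f, Br f → BLe f h → ∃ f', Br f' ∧ BLe f' f ∧ f' ∈ S T Y) := by
  classical
  let A : ℕ × ℕ × ℕ × Finset ℕ → Set (ℕ → ZFSet.{u}) := fun t => {f | ∃ T Y,
    (∀ n', t.1 ≤ n' → ∀ m ≤ t.2.1, (n', m) ∉ T) ∧ (∀ i < t.2.2.1, (i ∈ Y ↔ i ∈ t.2.2.2)) ∧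
      Y ∈ (cond f).F ∧ f ∈ S T Y}
  have hA : ∀ t, Down (A t) := fun t f g hf hg h ⟨T, Y, h1, h2, h3, h4⟩ =>
    ⟨T, Y, h1, h2, h.cond.2 h3, hS T Y f g hf hg h h4⟩
  obtain ⟨F, hF, hFg, hdec⟩ := exists_yes_or_no A hA (cond g).good
  let cut : Set ℕ → ℕ → Finset ℕ := fun Z m => (Finset.range m).filter (· ∈ Z)
  have hcut : ∀ Z m, ∀ i < m, (i ∈ Z ↔ i ∈ cut Z m) := fun Z m i hi => by simp [cut, hi]
  let K : ℕ → ℕ → Set (Set ℕ) := fun n k => {Z | ∀ m, Yes F (A (n, k, m, cut Z m))}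
  by_cases hc : ∃ n Z, (∀ k, Z ∈ K n k) ∧ Zᶜ ∉ F
  · obtain ⟨n, Z, h1, h2⟩ := hc
    obtain ⟨G, h3, h4, h5⟩ := exists_good_forall (fun (j : ℕ) G => ∃ T Y,
      (∀ n', n ≤ n' → ∀ m ≤ j, (n', m) ∉ T) ∧ (∀ i < j, (i ∈ Y ↔ i ∈ Z)) ∧ Y ∈ G ∧ Yes G (S T Y))
      (fun j F G h ⟨T, Y, a, b, c, d⟩ => ⟨T, Y, a, b, h c, fun f hf h' => d f hf (h'.trans h)⟩)
      (hF.inf_principal h2) (fun j G hG hGF => by
        obtain ⟨f, hf, -, h6, -⟩ := hg.exists_below hG (hGF.trans (inf_le_left.trans hFg)) univ_mem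
        obtain ⟨f', hf', h7, T, Y, a, b, c, d⟩ := h1 j j f hf (h6.trans (hGF.trans inf_le_left))
        exact ⟨_, (cond f').good, h7.cond.2.trans h6, T, Y, a,
          fun i hi => (b i hi).trans (hcut Z j i hi).symm, c, hf'.yes (hS T Y) d⟩)
    choose T Y h6 h7 h8 h9 using h5
    obtain ⟨W, h10, h11⟩ := h3.exists_subseq (h4 (mem_inf_of_right (mem_principal_self Z))) h8 h7
    obtain ⟨h, h12, h13, h14, h15⟩ := hg.exists_below (h3.inf_principal h10)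
      (inf_le_left.trans (h4.trans (inf_le_left.trans hFg)))
      (mem_inf_of_right (mem_principal_self W))
    refine ⟨h, h12, h13, Or.inr ⟨n, fun n' hn' m => ?_⟩⟩
    obtain ⟨j, h16, h17⟩ := h11 m
    exact ⟨T j, Y j, h6 j n' hn' m h16, h15.trans h17,
      fun f hf h18 => h9 j f hf (h18.cond.2.trans (h14.trans inf_le_left))⟩
  · push Not at hc
    obtain ⟨b, G, h1, h2, h3⟩ := hF.exists_diag K (fun n k X hX m => by
      obtain ⟨i, h1, h2⟩ := (hX.and (ev_agree X m)).exists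
      have h3 : cut (ulim X) m = cut (X i) m := Finset.filter_congr fun j hj =>
        (h2 j (Finset.mem_range.1 hj)).symm
      rw [h3]
      exact h1 m) (fun n k k' hk Z hZ m f hf h => by
        obtain ⟨f', hf', h1, T, Y, a, h2⟩ := hZ m f hf h
        exact ⟨f', hf', h1, T, Y, fun n' hn' m' hm' => a n' hn' m' (hm'.trans hk), h2⟩) hc
    obtain ⟨h, h4, h5, h6, -⟩ := hg.exists_below h1 (h2.trans hFg) univ_mem
    refine ⟨h, h4, h5, Or.inl ⟨{t | ∀ n ≤ t.1, b n < t.2}, fun n => ⟨(Finset.range (n + 1)).sup b + 1,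
      fun m hm i hi => lt_of_le_of_lt (Finset.le_sup (f := b) (Finset.mem_range.2
        (Nat.lt_succ_of_le hi))) hm⟩, fun f hf h7 Y hY h8 => ?_⟩⟩
    have h9 : Y ∈ (cond f).F := mem_of_superset (cond f).mem hY
    have h10 : (cond f).F ≤ G := h7.cond.2.trans h6
    have h11 : ¬ ∀ n, Y ∈ K n (b n) := fun h => by
      simpa using ((cond f).good.infinite (inter_mem h9 (h10 (h3 Y h)))).nonempty
    simp only [K, mem_ofPred_eq, not_forall] at h11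
    obtain ⟨n, m, h11⟩ := h11
    exact (hdec _).resolve_left h11 f hf (h10.trans h2) ⟨{t | ∀ n ≤ t.1, b n < t.2}, Y,
      fun n' hn' m' hm' h12 => absurd (h12 n hn') (not_lt.2 hm'), hcut Y m, h9, h8⟩

end Pool.Agent.P.MP_dbfd73_lc
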