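import Mathlib.Topology.Baire.BaireMeasurable
import Pool.Agent.Lib.Forcing.Defs

/-!
The notions of the problem. Members of a space are `ω`-sequences (sets of ordered pairs) and the
approximation `r_n(A)` is the restriction of `A` to `n`. The pair `(B, A)` is in `le` if `B ≤ A`.
The number one is the set `{∅}`.
-/

universe u

namespace Pool.Agent.P.MP_dbfd73_lc

open ZFSet Pool.Agent.Lib.Forcing

/-- `r_n(A)`: the restriction of the sequence `A` to `n`. -/
def res (n A : ZFSet.{u}) : ZFSet.{u} := A.sep fun z => ∃ i ∈ n, ∃ y, z = pair i y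

/-- `S` is a closed set of `ω`-sequences. -/
def ClosedSeq (S : ZFSet.{u}) : Prop :=
  ∀ A, A ∈ S ↔ (∃ Y, IsFunc omega Y A) ∧ ∀ n ∈ omega, ∃ B ∈ S, res n B = res n A

/-- The set of all `B ≤ A`. -/
def below (R le A : ZFSet.{u}) : ZFSet.{u} := R.sep fun B => pair B A ∈ le

/-- The first approximations of the members of `S`. -/
noncomputable def first (S : ZFSet.{u}) : ZFSet.{u} := range fun B : S => res {∅} B

/-- The basic set `[a, A]`. -/
def cone (R le a A : ZFSet.{u}) : Set R := {B | pair B A ∈ le ∧ ∃ n ∈ omega, res n B = a}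

/-- The Ellentuck topology. -/
@[reducible] def ellentuck (R le : ZFSet.{u}) : TopologicalSpace R :=
  .generateFrom {S | ∃ n ∈ omega, ∃ C ∈ R, ∃ A ∈ R, S = cone R le (res n C) A}

def IsRamsey (R le : ZFSet.{u}) (X : Set R) : Prop :=
  ∀ a, ∀ A ∈ R, (cone R le a A).Nonempty →
    ∃ B ∈ cone R le a A, cone R le a B ⊆ X ∨ cone R le a B ∩ X = ∅

def IsRamseyNull (R le : ZFSet.{u}) (X : Set R) : Prop :=
  ∀ a, ∀ A ∈ R, (cone R le a A).Nonempty → ∃ B ∈ cone R le a A, cone R le a B ∩ X = ∅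

/-- `(R, le, res)` is a topological Ramsey space. -/
structure IsTRS (R le : ZFSet.{u}) : Prop where
  quasiOrder : IsForcing R le
  baire : ∀ X, @BaireMeasurableSet R (ellentuck R le) X → IsRamsey R le X
  meagre : ∀ X, @IsMeagre R (ellentuck R le) X → IsRamseyNull R le X

/-- `j` embeds the transitive class `M` elementarily into the universe and sends `R'`, `le'` to
`R`, `le`; `G` is generic over `M` for the forcing `(R', le')`. -/
structure GenericOver (R le : ZFSet.{u}) (M : Set ZFSet.{u}) (j : ZFSet.{u} → ZFSet.{u})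
    (R' le' G : ZFSet.{u}) : Prop where
  transitive : ∀ x ∈ M, ∀ y ∈ x, y ∈ M
  elementary : ∀ (φ : Fml) (e : ℕ → ZFSet.{u}), (∀ i, e i ∈ M) →
    (Sat M φ e ↔ Sat Set.univ φ fun i => j (e i))
  mem : R' ∈ M ∧ le' ∈ M
  map : j R' = R ∧ j le' = le
  generic : IsGeneric M R' le' G

/-- `U_1` of the class `N`: the subsets of `AR_1` in `N` that contain `r_1[A]` for some `A ∈ G`. -/
noncomputable def forced (N : Set ZFSet.{u}) (R le G : ZFSet.{u}) : ZFSet.{u} :=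
  (powerset (first R)).sep fun X => X ∈ N ∧ ∃ A ∈ G, first (below R le A) ⊆ X

/-- `N` satisfies: `U` is an ultrafilter on `D`. -/
structure IsUltra (N : Set ZFSet.{u}) (D U : ZFSet.{u}) : Prop where
  mem : U ∈ N
  subset : ∀ X ∈ U, X ⊆ D
  proper : ∅ ∉ U
  inter : ∀ X ∈ U, ∀ Y ∈ U, X ∩ Y ∈ U
  upward : ∀ X ∈ U, ∀ Y ∈ N, X ⊆ Y → Y ⊆ D → Y ∈ U
  ultra : ∀ X ∈ N, X ⊆ D → X ∈ U ∨ D \ X ∈ U

/-- The Fubini square `U · U` of the class `N`. -/
def fubini (N : Set ZFSet.{u}) (D U : ZFSet.{u}) : ZFSet.{u} :=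
  (powerset (D.prod D)).sep fun X => X ∈ N ∧
    D.sep (fun s => D.sep (fun t => pair s t ∈ X) ∈ U) ∈ U

/-- `C` is cofinal in `(P, ⊇)`. -/
def Cofinal (C P : ZFSet.{u}) : Prop := C ⊆ P ∧ ∀ X ∈ P, ∃ Y ∈ C, Y ⊆ X

/-- `N` satisfies `(P, ⊇) ≤_T (Q, ⊇)`. -/
def TukeyLE (N : Set ZFSet.{u}) (P Q : ZFSet.{u}) : Prop :=
  ∃ f ∈ N, IsFunc Q P f ∧ ∀ C ∈ N, Cofinal C Q → Cofinal (P.sep fun Z => ∃ Y ∈ C, pair Y Z ∈ f) P

end Pool.Agent.P.MP_dbfd73_lc
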