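import Pool.Agent.P.MP_dbfd73_lc.Enc
import Pool.Agent.Lib.Constructible.Hull

/-!
The first-order properties of the forcing that are used in the generic extension.
-/

universe u

set_option synthInstance.maxSize 16384

namespace Pool.Agent.P.MP_dbfd73_lc

open Filter Set ZFSet Pool.Agent.Lib.Forcing

/-- `r_1[q]` -/
noncomputable def r1 (R le q : ZFSet.{u}) : ZFSet.{u} := first (below R le q)

def Mono (le S : ZFSet.{u}) : Prop := ∀ p q, pair q p ∈ le → ∀ x, pair x p ∈ S → pair x q ∈ S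

def DenseB (le S x q : ZFSet.{u}) : Prop :=
  ∀ s, pair s q ∈ le → ∃ s', pair s' s ∈ le ∧ pair x s' ∈ S

def Dist (M : Set ZFSet.{u}) (R le a : ZFSet.{u}) : Prop :=
  ∀ S ∈ M, Mono le S → ∀ p ∈ R, ∃ q, pair q p ∈ le ∧
    ∀ x ∈ a, DenseB le S x q ∨ ∀ s, pair s q ∈ le → pair x s ∉ S

def Alt (M : Set ZFSet.{u}) (R le S q : ZFSet.{u}) : Prop :=
  (∃ T ∈ M, T ⊆ (first R).prod (first R) ∧
    (∀ n ∈ omega, ∃ k ∈ omega, ∀ m ∈ omega, k ⊆ m → pair (pt n) (pt m) ∈ T) ∧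
    ∀ s, pair s q ∈ le → ∀ Y ∈ M, Y ⊆ first R → r1 R le s ⊆ Y → pair (pair T Y) s ∉ S) ∨
  ∃ n ∈ omega, ∀ k ∈ omega, n ⊆ k → ∀ m ∈ omega, ∃ T ∈ M, ∃ Y ∈ M,
    T ⊆ (first R).prod (first R) ∧ Y ⊆ first R ∧ pair (pt k) (pt m) ∉ T ∧ r1 R le q ⊆ Y ∧
      DenseB le S (pair T Y) q

def Nice (M : Set ZFSet.{u}) (R le : ZFSet.{u}) : Prop :=
  (le ⊆ R.prod R ∧ (∀ p ∈ R, pair p p ∈ le) ∧
    ∀ q p, pair q p ∈ le → ∀ r, pair r q ∈ le → pair r p ∈ le) ∧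
  first R = img pt omega ∧
  (∀ q ∈ R, ∀ k ∈ omega, ∃ m ∈ omega, k ⊆ m ∧ pt m ∈ r1 R le q) ∧
  Dist M R le omega ∧ Dist M R le (first R) ∧
  (∀ Y ∈ M, ∀ p ∈ R, ∃ q, pair q p ∈ le ∧ (r1 R le q ⊆ Y ∨ ∀ x ∈ r1 R le q, x ∉ Y)) ∧
  ∀ S ∈ M, Mono le S → ∀ p ∈ R, ∃ q, pair q p ∈ le ∧ Alt M R le S q

section
variable {s t w v : Set ZFSet.{u} → Env.{u} → ZFSet.{u}}

instance ztm_res [ZTm s] [ZTm t] : ZTm (fun M e => res (s M e) (t M e)) :=
  ZTm.comp2 (F := fun _ => res) (by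
    have h : ∀ n A : ZFSet.{u}, res n A = A.sep fun z => ∃ i y, z = pair i y ∧ i ∈ n := by
      intro n A
      unfold res
      congr 1
      funext z
      exact propext ⟨fun ⟨i, h, y, h'⟩ => ⟨i, y, h', h⟩, fun ⟨i, y, h', h⟩ => ⟨i, h, y, h'⟩⟩
    simp only [h]
    infer_instance) s t

instance ztm_pt [ZTm s] : ZTm (fun M e => pt (s M e)) :=
  ZTm.comp1 (F := fun _ => pt) (by unfold pt; infer_instance) s

instance ztm_first [ZTm s] : ZTm (fun M e => first (s M e)) :=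
  ZTm.comp1 (F := fun _ => first)
    (inferInstance : ZTm (fun _ e => img (fun B => res {∅} B) (e 0))) s

instance ztm_r1 [ZTm s] [ZTm t] [ZTm w] : ZTm (fun M e => r1 (s M e) (t M e) (w M e)) :=
  ZTm.comp3 (F := fun _ => r1) (by unfold r1 below; infer_instance) s t w

instance zdf_mono [ZTm s] [ZTm t] : ZDf (fun M e => Mono (s M e) (t M e)) :=
  ZDf.subst2 (R := fun _ => Mono) ((inferInstance : ZDf (fun _ e => ∀ q p, pair q p ∈ e 0 →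
    ∀ x, pair x p ∈ e 1 → pair x q ∈ e 1)).congr fun _ _ _ _ => forall_comm) s t

instance zdf_denseB [ZTm s] [ZTm t] [ZTm w] [ZTm v] :
    ZDf (fun M e => DenseB (s M e) (t M e) (w M e) (v M e)) :=
  ZDf.subst4 (R := fun _ => DenseB) (by unfold DenseB; infer_instance) s t w v

instance zdf_dist [ZTm s] [ZTm t] [ZTm w] : ZDf (fun M e => Dist M (s M e) (t M e) (w M e)) :=
  ZDf.subst3 (R := Dist) (by unfold Dist; infer_instance) s t w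

instance zdf_alt [ZTm s] [ZTm t] [ZTm w] [ZTm v] :
    ZDf (fun M e => Alt M (s M e) (t M e) (w M e) (v M e)) :=
  ZDf.subst4 (R := Alt) (by unfold Alt; infer_instance) s t w v

instance zdf_nice [ZTm s] [ZTm t] : ZDf (fun M e => Nice M (s M e) (t M e)) :=
  ZDf.subst2 (R := Nice) (by
    have : ZTm.{u} (fun _ _ => img pt omega) :=
      (inferInstance : ZTm (fun _ _ => img (fun x => pt x) omega))
    unfold Nice; infer_instance) s t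

end

variable {f g : ℕ → ZFSet.{u}}

theorem down_of_mono {S : ZFSet.{u}} (h : Mono ord S) (x : ZFSet.{u}) :
    Down {f | pair x (enc f) ∈ S} := fun _ _ hf hg h1 h2 => h _ _ (h1.mem hf hg) x h2

theorem denseB_enc {S x : ZFSet.{u}}
    (h : ∀ f, Br f → BLe f g → ∃ f', Br f' ∧ BLe f' f ∧ pair x (enc f') ∈ S) :
    DenseB ord S x (enc g) := by
  intro s hs
  obtain ⟨-, f, hf, h1, rfl⟩ := pair_enc_mem_ord.1 hs
  obtain ⟨f', h2, h3, h4⟩ := h f hf h1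
  exact ⟨_, h3.mem h2 hf, h4⟩

theorem dist_univ {a : ZFSet.{u}} (c : ℕ → ZFSet.{u}) (hc : ∀ x ∈ a, ∃ n, c n = x) :
    Dist univ sp ord a := by
  intro S _ hS p hp
  obtain ⟨g, hg, rfl⟩ := mem_sp.1 hp
  obtain ⟨h, h1, h2, h3⟩ := core0 hg (fun n => {f | pair (c n) (enc f) ∈ S})
    fun n => down_of_mono hS _
  refine ⟨_, h2.mem h1 hg, fun x hx => ?_⟩
  obtain ⟨n, rfl⟩ := hc x hx
  refine (h3 n).imp denseB_enc fun H s hs => ?_
  obtain ⟨-, f, hf, h4, rfl⟩ := pair_enc_mem_ord.1 hs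
  exact H f hf h4

/-- A set of numbers as a set of first approximations. -/
noncomputable def encD (Y : Set ℕ) : ZFSet.{u} := img pt (encS Y)

theorem mem_encD {Y : Set ℕ} {z : ZFSet.{u}} : z ∈ encD Y ↔ ∃ n ∈ Y, z = pt (nat n) := by
  simp only [encD, mem_img, mem_encS]
  exact ⟨fun ⟨_, ⟨n, h, h1⟩, h2⟩ => ⟨n, h, by rw [h1, h2]⟩, fun ⟨n, h, h1⟩ => ⟨_, ⟨n, h, rfl⟩, h1.symm⟩⟩

theorem pt_mem_first (n : ℕ) : pt (nat n) ∈ first sp.{u} :=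
  mem_first_sp.2 ⟨_, nat_mem_omega n, rfl⟩

theorem encD_subset (Y : Set ℕ) : encD Y ⊆ first sp.{u} := fun z hz => by
  obtain ⟨n, -, rfl⟩ := mem_encD.1 hz
  exact pt_mem_first n

theorem r1_enc (hg : Br g) : r1 sp ord (enc g) = encD (cond g).X :=
  ZFSet.ext fun _ => (mem_first_below hg).trans mem_encD.symm

theorem encD_mono {X Y : Set ℕ} (h : X ⊆ Y) : encD.{u} X ⊆ encD Y := fun z hz => by
  obtain ⟨n, hn, rfl⟩ := mem_encD.1 hz
  exact mem_encD.2 ⟨n, h hn, rfl⟩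

theorem encD_eq {Y : ZFSet.{u}} (h : Y ⊆ first sp) : encD {n | pt (nat n) ∈ Y} = Y := by
  ext z
  rw [mem_encD]
  refine ⟨fun ⟨n, hn, h'⟩ => h' ▸ hn, fun hz => ?_⟩
  obtain ⟨n, hn, rfl⟩ := mem_first_sp.1 (h hz)
  obtain ⟨n, rfl⟩ := mem_omega_iff.1 hn
  exact ⟨n, hz, rfl⟩

noncomputable def encT (T : Set (ℕ × ℕ)) : ZFSet.{u} :=
  ((first sp).prod (first sp)).sep fun z => ∃ t ∈ T, z = pair (pt (nat t.1)) (pt (nat t.2))

theorem mem_encT {T : Set (ℕ × ℕ)} {n m : ℕ} :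
    pair (pt (nat n)) (pt (nat m)) ∈ encT.{u} T ↔ (n, m) ∈ T := by
  rw [encT, ZFSet.mem_sep]
  constructor
  · rintro ⟨-, t, ht, h⟩
    obtain ⟨h1, h2⟩ := pair_inj.1 h
    rwa [nat_inj.1 (pt_inj h1), nat_inj.1 (pt_inj h2)]
  · exact fun h => ⟨pair_mem_prod.2 ⟨pt_mem_first n, pt_mem_first m⟩, _, h, rfl⟩

theorem nice_univ : Nice univ sp.{u} ord := by
  refine ⟨⟨isForcing_sp.subset, isForcing_sp.refl, fun q p h r h' => isForcing_sp.trans p q r h' h⟩,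
    ZFSet.ext fun z => by simp only [mem_first_sp, mem_img, eq_comm], fun q hq k hk => ?_,
    dist_univ nat fun x hx => mem_omega_iff.1 hx, dist_univ (fun n => pt (nat n)) fun x hx => ?_,
    fun Y _ p hp => ?_, fun S _ hS p hp => ?_⟩
  · obtain ⟨g, hg, rfl⟩ := mem_sp.1 hq
    obtain ⟨k, rfl⟩ := mem_omega_iff.1 hk
    obtain ⟨m, h1, h2⟩ := ((cond g).good.infinite (cond g).mem).exists_gt k
    exact ⟨_, nat_mem_omega m, nat_subset_nat.2 h2.le, (mem_first_below hg).2 ⟨m, h1, rfl⟩⟩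
  · obtain ⟨n, hn, rfl⟩ := mem_first_sp.1 hx
    obtain ⟨n, rfl⟩ := mem_omega_iff.1 hn
    exact ⟨n, rfl⟩
  · obtain ⟨g, hg, rfl⟩ := mem_sp.1 hp
    obtain ⟨h, h1, h2, h3⟩ := core1 hg {n | pt (nat n) ∈ Y}
    refine ⟨_, h2.mem h1 hg, h3.imp (fun H x hx => ?_) fun H x hx => ?_⟩ <;>
    · obtain ⟨n, hn, rfl⟩ := (mem_first_below h1).1 hx
      exact H hn
  · obtain ⟨g, hg, rfl⟩ := mem_sp.1 hp
    obtain ⟨h, h1, h2, h3⟩ := core2 hg (fun T Y => {f | pair (pair (encT T) (encD Y)) (enc f) ∈ S})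
      fun T Y => down_of_mono hS _
    refine ⟨_, h2.mem h1 hg, h3.imp (fun ⟨T, h4, h5⟩ => ⟨encT T, trivial, sep_subset,
      fun n hn => ?_, fun s hs Y _ hY h6 => ?_⟩) fun ⟨n, H⟩ =>
        ⟨_, nat_mem_omega n, fun k hk h4 m hm => ?_⟩⟩
    · obtain ⟨n, rfl⟩ := mem_omega_iff.1 hn
      obtain ⟨k, hk⟩ := h4 n
      refine ⟨_, nat_mem_omega k, fun m hm h6 => ?_⟩
      obtain ⟨m, rfl⟩ := mem_omega_iff.1 hm
      exact mem_encT.2 (hk m (nat_subset_nat.1 h6))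
    · obtain ⟨-, f, hf, h7, rfl⟩ := pair_enc_mem_ord.1 hs
      rw [← encD_eq hY]
      exact h5 f hf h7 _ fun n hn => h6 ((mem_first_below hf).2 ⟨n, hn, rfl⟩)
    · obtain ⟨k, rfl⟩ := mem_omega_iff.1 hk
      obtain ⟨m, rfl⟩ := mem_omega_iff.1 hm
      obtain ⟨T, Y, h5, h6, h7⟩ := H k (nat_subset_nat.1 h4) m
      exact ⟨encT T, trivial, encD Y, trivial, sep_subset, encD_subset Y, mt mem_encT.1 h5,
        r1_enc h1 ▸ encD_mono h6, denseB_enc h7⟩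

end Pool.Agent.P.MP_dbfd73_lc
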