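import Pool.Agent.P.MP_dbfd73_lc.Core
import Pool.Agent.P.MP_dbfd73_lc.Defs

/-!
The space of branches as a set of `ω`-sequences, and its Ramsey property.
-/

universe u

namespace Pool.Agent.P.MP_dbfd73_lc

open Filter Set ZFSet Pool.Agent.Lib.Forcing

/-- A sequence as a set of ordered pairs. -/
noncomputable def encF (s : ℕ → ZFSet.{u}) : ZFSet.{u} := ZFSet.range fun n : ℕ => pair (nat n) (s n)

theorem mem_encF {s : ℕ → ZFSet.{u}} {z : ZFSet.{u}} : z ∈ encF s ↔ ∃ n, pair (nat n) (s n) = z := by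
  rw [encF, ZFSet.mem_range]

theorem pair_mem_encF {s : ℕ → ZFSet.{u}} {n : ℕ} {y : ZFSet.{u}} :
    pair (nat n) y ∈ encF s ↔ y = s n := by
  rw [mem_encF]
  constructor
  · rintro ⟨m, h⟩
    obtain ⟨h1, h2⟩ := pair_inj.1 h
    rw [← h2, nat_inj.1 h1]
  · rintro rfl
    exact ⟨n, rfl⟩

theorem mem_res_encF {s : ℕ → ZFSet.{u}} {n : ℕ} {z : ZFSet.{u}} :
    z ∈ res (nat n) (encF s) ↔ ∃ i < n, pair (nat i) (s i) = z := by
  rw [res, ZFSet.mem_sep, mem_encF]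
  constructor
  · rintro ⟨⟨i, rfl⟩, k, hk, y, h⟩
    rw [← (pair_inj.1 h).1, nat_mem_nat] at hk
    exact ⟨i, hk, rfl⟩
  · rintro ⟨i, hi, rfl⟩
    exact ⟨⟨i, rfl⟩, _, nat_mem_nat.2 hi, _, rfl⟩

theorem res_encF_eq {s t : ℕ → ZFSet.{u}} {m n : ℕ} :
    res (nat m) (encF s) = res (nat n) (encF t) ↔ m = n ∧ ∀ i < n, s i = t i := by
  have key : ∀ {s t : ℕ → ZFSet.{u}} {m n : ℕ}, res (nat m) (encF s) = res (nat n) (encF t) →
      ∀ i < m, i < n ∧ s i = t i := by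
    intro s t m n h i hi
    obtain ⟨k, hk, h'⟩ := mem_res_encF.1 (h ▸ mem_res_encF.2 ⟨i, hi, rfl⟩)
    obtain ⟨h1, h2⟩ := pair_inj.1 h'
    obtain rfl := nat_inj.1 h1
    exact ⟨hk, h2.symm⟩
  constructor
  · intro h
    have h1 : m = n := le_antisymm (le_of_forall_lt fun i hi => (key h i hi).1)
      (le_of_forall_lt fun i hi => (key h.symm i hi).1)
    exact ⟨h1, fun i hi => ((key h.symm i hi).2).symm⟩
  · rintro ⟨rfl, h⟩
    ext z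
    simp only [mem_res_encF]
    exact exists_congr fun i => and_congr_right fun hi => by rw [h i hi]

theorem isFunc_encF {s : ℕ → ZFSet.{u}} {Y : ZFSet.{u}} (h : ∀ n, s n ∈ Y) :
    IsFunc omega Y (encF s) := by
  refine ⟨fun z hz => ?_, fun z hz => ?_⟩
  · obtain ⟨n, rfl⟩ := mem_encF.1 hz
    exact pair_mem_prod.2 ⟨nat_mem_omega n, h n⟩
  · obtain ⟨n, rfl⟩ := mem_omega_iff.1 hz
    exact ⟨s n, pair_mem_encF.2 rfl, fun y hy => pair_mem_encF.1 hy⟩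

theorem exists_encF {Y A : ZFSet.{u}} (h : IsFunc omega Y A) : ∃ s, encF s = A := by
  choose s hs hs' using fun n : ℕ => h.2 _ (nat_mem_omega n)
  refine ⟨s, ZFSet.ext fun z => ⟨fun hz => ?_, fun hz => ?_⟩⟩
  · obtain ⟨n, rfl⟩ := mem_encF.1 hz
    exact hs n
  · obtain ⟨a, ha, b, -, rfl⟩ := ZFSet.mem_prod.1 (h.1 hz)
    obtain ⟨n, rfl⟩ := mem_omega_iff.1 ha
    exact pair_mem_encF.2 (hs' n b hz)

/-- The sequence of a branch: first the point, then the nodes. -/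
noncomputable def seq (f : ℕ → ZFSet.{u}) : ℕ → ZFSet.{u}
  | 0 => nat (pnt f)
  | k + 1 => f k

noncomputable def enc (f : ℕ → ZFSet.{u}) : ZFSet.{u} := encF (seq f)

variable {f g c : ℕ → ZFSet.{u}}

theorem enc_inj (h : enc f = enc g) : f = g := funext fun k =>
  (pair_mem_encF (s := seq g) (n := k + 1)).1 (show _ ∈ enc g from h ▸ pair_mem_encF.2 rfl)

theorem res_enc_eq (hf : Br f) (hg : Br g) {m n : ℕ} :
    res (nat m) (enc f) = res (nat n) (enc g) ↔ m = n ∧ Agree n f g := by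
  rw [enc, enc, res_encF_eq]
  refine and_congr_right fun _ => ⟨fun h => ?_, fun h i hi => ?_⟩
  · rcases n with _ | _ | n
    exacts [trivial, nat_inj.1 (h 0 (by omega)), h (n + 1) (by omega)]
  · rcases i with _ | i
    · exact congrArg nat (h.mono hf hg (m := 1) hi)
    · exact h.mono hf hg (m := i + 2) hi

theorem Agree.symm {n : ℕ} (h : Agree n f g) : Agree n g f := by
  rcases n with _ | _ | n
  exacts [trivial, Eq.symm h, Eq.symm h]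

theorem Agree.trans {n : ℕ} (h : Agree n f g) (h' : Agree n g c) : Agree n f c := by
  rcases n with _ | _ | n
  exacts [trivial, Eq.trans h h', Eq.trans h h']

noncomputable def big : ZFSet.{u} := omega ∪ ⋃₀ ZFSet.range fun k : ℕ => (stage k).L

theorem Br.isFunc (hf : Br f) : IsFunc omega big (enc f) := isFunc_encF fun n => by
  rcases n with _ | n
  · exact ZFSet.mem_union.2 (Or.inl (nat_mem_omega _))
  · exact ZFSet.mem_union.2 (Or.inr (ZFSet.mem_sUnion.2 ⟨_, ZFSet.mem_range.2 ⟨n, rfl⟩, (hf n).1⟩))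

/-- The space. -/
noncomputable def sp : ZFSet.{u} := (powerset (omega.prod big)).sep fun z => ∃ f, Br f ∧ enc f = z

theorem mem_sp {z : ZFSet.{u}} : z ∈ sp ↔ ∃ f, Br f ∧ enc f = z := by
  rw [sp, ZFSet.mem_sep]
  exact ⟨fun h => h.2, fun ⟨f, hf, h⟩ => ⟨h ▸ mem_powerset.2 hf.isFunc.1, f, hf, h⟩⟩

theorem Br.mem (hf : Br f) : enc f ∈ sp := mem_sp.2 ⟨f, hf, rfl⟩

/-- The order of the space. -/
noncomputable def ord : ZFSet.{u} :=
  (sp.prod sp).sep fun z => ∃ f g, Br f ∧ Br g ∧ BLe f g ∧ pair (enc f) (enc g) = z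

theorem pair_mem_ord {a b : ZFSet.{u}} :
    pair a b ∈ ord ↔ ∃ f g, Br f ∧ Br g ∧ BLe f g ∧ enc f = a ∧ enc g = b := by
  rw [ord, ZFSet.mem_sep]
  constructor
  · rintro ⟨-, f, g, h1, h2, h3, h4⟩
    exact ⟨f, g, h1, h2, h3, pair_inj.1 h4⟩
  · rintro ⟨f, g, h1, h2, h3, rfl, rfl⟩
    exact ⟨pair_mem_prod.2 ⟨h1.mem, h2.mem⟩, f, g, h1, h2, h3, rfl⟩

theorem pair_enc_mem_ord {a : ZFSet.{u}} :
    pair a (enc g) ∈ ord ↔ Br g ∧ ∃ f, Br f ∧ BLe f g ∧ enc f = a := by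
  rw [pair_mem_ord]
  constructor
  · rintro ⟨f, g', h1, h2, h3, h4, h5⟩
    obtain rfl := enc_inj h5
    exact ⟨h2, f, h1, h3, h4⟩
  · rintro ⟨h1, f, h2, h3, h4⟩
    exact ⟨f, g, h2, h1, h3, h4, rfl⟩

theorem BLe.mem (h : BLe f g) (hf : Br f) (hg : Br g) : pair (enc f) (enc g) ∈ ord :=
  pair_enc_mem_ord.2 ⟨hg, f, hf, h, rfl⟩

theorem isForcing_sp : IsForcing sp.{u} ord := by
  refine ⟨sep_subset, fun p hp => ?_, fun p q r h1 h2 => ?_⟩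
  · obtain ⟨f, hf, rfl⟩ := mem_sp.1 hp
    exact (BLe.refl f).mem hf hf
  · obtain ⟨f, g, h3, h4, h5, rfl, rfl⟩ := pair_mem_ord.1 h2
    obtain ⟨-, c, h6, h7, rfl⟩ := pair_enc_mem_ord.1 h1
    exact (h7.trans h5).mem h6 h4

theorem mem_below_enc (hg : Br g) {z : ZFSet.{u}} :
    z ∈ below sp ord (enc g) ↔ ∃ f, Br f ∧ BLe f g ∧ enc f = z := by
  rw [below, ZFSet.mem_sep, pair_enc_mem_ord]
  exact ⟨fun h => h.2.2, fun ⟨f, h1, h2, h3⟩ => ⟨h3 ▸ h1.mem, hg, f, h1, h2, h3⟩⟩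

theorem exists_lim {A Y : ZFSet.{u}} (h : IsFunc omega Y A) {Q : (ℕ → ZFSet.{u}) → Prop}
    (h' : ∀ n, ∃ c, Br c ∧ Q c ∧ res (nat n) (enc c) = res (nat n) A) :
    ∃ f, Br f ∧ enc f = A ∧ ∀ k, ∃ c, Br c ∧ Q c ∧ f k = c k := by
  obtain ⟨s, rfl⟩ := exists_encF h
  simp only [enc, res_encF_eq, true_and] at h'
  refine ⟨fun k => s (k + 1), fun k => ?_, congrArg encF (funext fun i => ?_), fun k => ?_⟩
  · obtain ⟨c, hc, -, h1⟩ := h' (k + 3)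
    beta_reduce
    rw [← h1 (k + 1) (by omega), ← h1 (k + 1 + 1) (by omega)]
    exact hc k
  · rcases i with _ | i
    · obtain ⟨c, hc, -, h1⟩ := h' 2
      rw [← h1 0 (by omega)]
      exact congrArg (fun a => nat (num (fst a))) (h1 1 (by omega)).symm
    · rfl
  · obtain ⟨c, hc, h0, h1⟩ := h' (k + 2)
    exact ⟨c, hc, h0, (h1 (k + 1) (by omega)).symm⟩

theorem closedSeq_sp : ClosedSeq sp.{u} := by
  refine fun A => ⟨fun h => ⟨?_, fun n _ => ⟨A, h, rfl⟩⟩, fun ⟨⟨Y, h1⟩, h2⟩ => ?_⟩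
  · obtain ⟨f, hf, rfl⟩ := mem_sp.1 h
    exact ⟨_, hf.isFunc⟩
  · obtain ⟨f, hf, h3, -⟩ := exists_lim h1 (Q := fun _ => True) fun n => by
      obtain ⟨B, hB, h3⟩ := h2 _ (nat_mem_omega n)
      obtain ⟨c, hc, rfl⟩ := mem_sp.1 hB
      exact ⟨c, hc, trivial, h3⟩
    exact mem_sp.2 ⟨f, hf, h3⟩

theorem closedSeq_below {B : ZFSet.{u}} (hB : B ∈ sp) : ClosedSeq (below sp ord B) := by
  obtain ⟨g, hg, rfl⟩ := mem_sp.1 hB
  refine fun A => ⟨fun h => ⟨?_, fun n _ => ⟨A, h, rfl⟩⟩, fun ⟨⟨Y, h1⟩, h2⟩ => ?_⟩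
  · obtain ⟨f, hf, -, rfl⟩ := (mem_below_enc hg).1 h
    exact ⟨_, hf.isFunc⟩
  · obtain ⟨f, hf, h3, h4⟩ := exists_lim h1 (Q := fun c => BLe c g) fun n => by
      obtain ⟨B, hB, h3⟩ := h2 _ (nat_mem_omega n)
      obtain ⟨c, hc, h4, rfl⟩ := (mem_below_enc hg).1 hB
      exact ⟨c, hc, h4, h3⟩
    refine (mem_below_enc hg).2 ⟨f, hf, fun k => ?_, h3⟩
    obtain ⟨c, -, h5, h6⟩ := h4 k
    exact h6 ▸ h5 k

/-- The first approximation with point `n`. -/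
def pt (n : ZFSet.{u}) : ZFSet.{u} := {pair ∅ n}

theorem pt_inj {m n : ZFSet.{u}} (h : pt m = pt n) : m = n :=
  (pair_inj.1 (ZFSet.singleton_injective h)).2

theorem res_one_enc (f : ℕ → ZFSet.{u}) : res {∅} (enc f) = pt (nat (pnt f)) := by
  have h : ({∅} : ZFSet.{u}) = nat 1 := by ext; simp [nat]
  ext z
  rw [h, enc, mem_res_encF, pt, ZFSet.mem_singleton]
  exact ⟨fun ⟨i, hi, h⟩ => by obtain rfl : i = 0 := by omega
                              exact h.symm, fun h => ⟨0, by omega, h.symm⟩⟩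

theorem mem_first {S a : ZFSet.{u}} : a ∈ first S ↔ ∃ B ∈ S, res {∅} B = a := mem_img

theorem mem_first_sp {a : ZFSet.{u}} : a ∈ first sp ↔ ∃ n ∈ omega, a = pt n := by
  rw [mem_first]
  constructor
  · rintro ⟨B, hB, rfl⟩
    obtain ⟨f, -, rfl⟩ := mem_sp.1 hB
    exact ⟨_, nat_mem_omega _, res_one_enc f⟩
  · rintro ⟨n, hn, rfl⟩
    obtain ⟨x, rfl⟩ := mem_omega_iff.1 hn
    obtain ⟨f, hf, rfl⟩ := exists_br.{u} x
    exact ⟨_, hf.mem, res_one_enc f⟩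

theorem mem_first_below (hg : Br g) {a : ZFSet.{u}} :
    a ∈ first (below sp ord (enc g)) ↔ ∃ n ∈ (cond g).X, a = pt (nat n) := by
  rw [mem_first]
  constructor
  · rintro ⟨B, hB, rfl⟩
    obtain ⟨f, hf, h, rfl⟩ := (mem_below_enc hg).1 hB
    exact ⟨_, h.cond.1 hf.zero.2, res_one_enc f⟩
  · rintro ⟨n, hn, rfl⟩
    obtain ⟨f, hf, h, rfl⟩ := hg.exists_pnt hn
    exact ⟨_, (mem_below_enc hg).2 ⟨f, hf, h, rfl⟩, res_one_enc f⟩

/-- The branches whose code is in `X`. -/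
def pull (X : Set sp.{u}) : Set (ℕ → ZFSet.{u}) := {f | ∃ h : enc f ∈ sp, ⟨enc f, h⟩ ∈ X}

theorem mem_cone (hf : Br f) (hc : Br c) (hg : Br g) {n : ℕ} :
    (⟨enc f, hf.mem⟩ : sp) ∈ cone sp ord (res (nat n) (enc c)) (enc g) ↔ f ∈ Cone n c g := by
  constructor
  · rintro ⟨h1, m, hm, h2⟩
    obtain ⟨m, rfl⟩ := mem_omega_iff.1 hm
    obtain ⟨-, f', -, h3, h4⟩ := pair_enc_mem_ord.1 h1
    obtain rfl := enc_inj h4
    exact ⟨hf, h3, ((res_enc_eq hf hc).1 h2).2⟩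
  · rintro ⟨-, h1, h2⟩
    exact ⟨h1.mem hf hg, _, nat_mem_omega n, (res_enc_eq hf hc).2 ⟨rfl, h2⟩⟩

theorem exists_of_cone {a A : ZFSet.{u}} {B : sp} (h : B ∈ cone sp ord a A) :
    ∃ n c g, ∃ hc : Br c, Br g ∧ BLe c g ∧ B = ⟨enc c, hc.mem⟩ ∧ A = enc g ∧
      a = res (nat n) (enc c) := by
  obtain ⟨B, hB⟩ := B
  obtain ⟨h1, m, hm, rfl⟩ := h
  obtain ⟨m, rfl⟩ := mem_omega_iff.1 hm
  obtain ⟨c, g, hc, hg, h2, rfl, rfl⟩ := pair_mem_ord.1 h1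
  exact ⟨m, c, g, hc, hg, h2, rfl, rfl, rfl⟩

theorem forall_cone (hc : Br c) (hg : Br g) {n : ℕ} {X : Set sp.{u}}
    (h : ∀ f ∈ Cone n c g, f ∈ pull X) : cone sp ord (res (nat n) (enc c)) (enc g) ⊆ X := by
  rintro ⟨B, hB⟩ h1
  obtain ⟨f, hf, rfl⟩ := mem_sp.1 hB
  exact (h f ((mem_cone hf hc hg).1 h1)).2

theorem forall_cone' (hc : Br c) (hg : Br g) {n : ℕ} {X : Set sp.{u}}
    (h : ∀ f ∈ Cone n c g, f ∉ pull X) : cone sp ord (res (nat n) (enc c)) (enc g) ∩ X = ∅ :=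
  Set.eq_empty_of_forall_notMem fun _ hB => forall_cone hc hg (X := Xᶜ)
    (fun f hf => ⟨hf.1.mem, fun h' => h f hf ⟨_, h'⟩⟩) hB.1 hB.2

theorem openB_pull {O : Set sp.{u}} (h : @IsOpen _ (ellentuck sp ord) O) : OpenB (pull O) := by
  induction h with
  | basic S hS =>
    obtain ⟨n, -, C, -, A, -, rfl⟩ := hS
    rintro f hf ⟨h1, h2⟩
    obtain ⟨m, c, g, hc, hg, h3, h4, rfl, h5⟩ := exists_of_cone h2
    obtain rfl := enc_inj (congrArg Subtype.val h4)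
    rw [h5]
    exact ⟨m, fun f' hf' => ⟨hf'.1.mem, (mem_cone hf'.1 hf hg).2
      ⟨hf'.1, hf'.2.1.trans h3, hf'.2.2⟩⟩⟩
  | univ => exact fun f hf _ => ⟨0, fun f' hf' => ⟨hf'.1.mem, trivial⟩⟩
  | inter S T _ _ ih1 ih2 =>
    rintro f hf ⟨h1, h2⟩
    obtain ⟨m, hm⟩ := ih1 f hf ⟨h1, h2.1⟩
    obtain ⟨n, hn⟩ := ih2 f hf ⟨h1, h2.2⟩
    exact ⟨max m n, fun f' hf' => ⟨hf'.1.mem,
      (hm f' ⟨hf'.1, hf'.2.1, hf'.2.2.mono hf'.1 hf (le_max_left _ _)⟩).2,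
      (hn f' ⟨hf'.1, hf'.2.1, hf'.2.2.mono hf'.1 hf (le_max_right _ _)⟩).2⟩⟩
  | sUnion S _ ih =>
    rintro f hf ⟨h1, T, hT, h2⟩
    obtain ⟨n, hn⟩ := ih T hT f hf ⟨h1, h2⟩
    exact ⟨n, fun f' hf' => ⟨hf'.1.mem, T, hT, (hn f' hf').2⟩⟩

theorem nullB_pull {X : Set sp.{u}} (h : @IsMeagre _ (ellentuck sp ord) X) : NullB (pull X) := by
  let _ := ellentuck sp.{u} ord
  obtain ⟨S, h1, h2, h3⟩ := isMeagre_iff_countable_union_isNowhereDense.1 h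
  obtain ⟨N, hN⟩ := (h2.insert ∅).exists_eq_range (insert_nonempty _ _)
  have h4 : ∀ m, NullB (pull (N m)) := by
    intro m n c g hc hg hcg
    have h5 : IsNowhereDense (N m) := by
      rcases (show N m ∈ insert ∅ S from hN ▸ Set.mem_range_self m) with h5 | h5
      exacts [h5 ▸ isNowhereDense_empty, h1 _ h5]
    obtain ⟨k, hk, h6⟩ := ramseyB_of_openB (openB_pull (isClosed_closure (s := N m)).isOpen_compl)
      n c g hc hg hcg
    refine ⟨k, hk, fun f hf h7 => ?_⟩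
    rcases h6 with h6 | h6
    · exact (h6 f hf).2 (subset_closure h7.2)
    · have h8 : cone sp ord (res (nat n) (enc c)) (enc k) ⊆ interior (closure (N m)) :=
        interior_maximal (forall_cone hc hk.1 fun f' hf' => ⟨hf'.1.mem, by
          by_contra h9
          exact h6 f' hf' ⟨_, h9⟩⟩)
          (TopologicalSpace.GenerateOpen.basic _ ⟨_, nat_mem_omega n, _, hc.mem, _, hk.1.mem, rfl⟩)
      rw [show interior (closure (N m)) = ∅ from h5] at h8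
      exact h8 ((mem_cone hf.1 hc hk.1).2 hf)
  intro n c g hc hg hcg
  obtain ⟨k, hk, h5⟩ := nullB_iUnion h4 n c g hc hg hcg
  refine ⟨k, hk, fun f hf h6 => h5 f hf ?_⟩
  obtain ⟨T, hT, h7⟩ := h3 h6.2
  obtain ⟨m, rfl⟩ : T ∈ Set.range N := hN ▸ Set.mem_insert_of_mem _ hT
  exact mem_iUnion.2 ⟨m, h6.1, h7⟩

theorem ramseyB_pull {X : Set sp.{u}} (h : @BaireMeasurableSet _ (ellentuck sp ord) X) :
    RamseyB (pull X) := by
  let _ := ellentuck sp.{u} ord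
  obtain ⟨O, h1, h2⟩ := h.residualEq_isOpen
  intro n c g hc hg hcg
  obtain ⟨k, hk, h3⟩ := nullB_pull (X := {x | ¬ X x = O x}) (by
    simp only [IsMeagre, compl_ofPred, not_not]
    exact h2) n c g hc hg hcg
  obtain ⟨k', hk', h4⟩ := ramseyB_of_openB (openB_pull h1) n k k hk.1 hk.1 (BLe.refl k)
  have h5 : ∀ f ∈ Cone n c k', f ∈ Cone n k k' ∧ (f ∈ pull X ↔ f ∈ pull O) := fun f hf => by
    refine ⟨⟨hf.1, hf.2.1, hf.2.2.trans hk.2.2.symm⟩, ?_⟩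
    have h6 : X ⟨enc f, hf.1.mem⟩ = O ⟨enc f, hf.1.mem⟩ := by
      by_contra h6
      exact h3 f ⟨hf.1, hf.2.1.trans hk'.2.1, hf.2.2⟩ ⟨_, h6⟩
    exact exists_congr fun _ => iff_of_eq h6
  exact ⟨k', ⟨hk'.1, hk'.2.1.trans hk.2.1, hk'.2.2.trans hk.2.2⟩, h4.imp
    (fun H f hf => (h5 f hf).2.2 (H f (h5 f hf).1))
    fun H f hf => mt (h5 f hf).2.1 (H f (h5 f hf).1)⟩

theorem isTRS_sp : IsTRS sp.{u} ord := by
  refine ⟨isForcing_sp, fun X hX a A _ ⟨B, hB⟩ => ?_, fun X hX a A _ ⟨B, hB⟩ => ?_⟩ <;>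
    obtain ⟨n, c, g, hc, hg, h1, rfl, rfl, rfl⟩ := exists_of_cone hB
  · obtain ⟨k, hk, h2⟩ := ramseyB_pull hX n c g hc hg h1
    exact ⟨⟨_, hk.1.mem⟩, (mem_cone hk.1 hc hg).2 hk,
      h2.imp (forall_cone hc hk.1) (forall_cone' hc hk.1)⟩
  · obtain ⟨k, hk, h2⟩ := nullB_pull hX n c g hc hg h1
    exact ⟨⟨_, hk.1.mem⟩, (mem_cone hk.1 hc hg).2 hk, forall_cone' hc hk.1 h2⟩

end Pool.Agent.P.MP_dbfd73_lc
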