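import Mathlib.Order.Filter.Ultrafilter.Basic
import Mathlib.Order.Filter.Cofinite
import Mathlib.Order.Filter.AtTopBot.Basic
import Mathlib.Order.Zorn

/-!
Free filters on the natural numbers that are countable unions of closed families, and a maximal
filter of dense subsets of a preorder.
-/

namespace Pool.Agent.P.MP_dbfd73_lc

open Filter Set

/-- The limit of a sequence of sets along a fixed free ultrafilter. -/
def ulim (X : ℕ → Set ℕ) : Set ℕ := {i | ∀ᶠ k in (hyperfilter ℕ : Filter ℕ), i ∈ X k}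

/-- Families that are closed under limits. -/
def Cl (K : Set (Set ℕ)) : Prop :=
  ∀ X : ℕ → Set ℕ, (∀ᶠ k in (hyperfilter ℕ : Filter ℕ), X k ∈ K) → ulim X ∈ K

theorem ev_ge (n : ℕ) : ∀ᶠ k in (hyperfilter ℕ : Filter ℕ), n ≤ k :=
  (Nat.hyperfilter_le_atTop) (eventually_ge_atTop n)

theorem ulim_union (X Y : ℕ → Set ℕ) : ulim (fun k => X k ∪ Y k) = ulim X ∪ ulim Y := by
  ext i
  simp only [ulim, mem_ofPred_eq, mem_union]
  exact Ultrafilter.eventually_or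

theorem ulim_congr {X Y : ℕ → Set ℕ} (h : ∀ᶠ k in (hyperfilter ℕ : Filter ℕ), X k = Y k) :
    ulim X = ulim Y := by
  ext i
  exact eventually_congr (h.mono fun k hk => by rw [hk])

theorem ulim_const (X : Set ℕ) : ulim (fun _ => X) = X := by
  ext i
  simp [ulim]

theorem notMem_ulim {X : ℕ → Set ℕ} {i : ℕ} :
    i ∉ ulim X ↔ ∀ᶠ k in (hyperfilter ℕ : Filter ℕ), i ∉ X k :=
  Ultrafilter.eventually_not.symm

theorem ev_agree (X : ℕ → Set ℕ) (m : ℕ) :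
    ∀ᶠ k in (hyperfilter ℕ : Filter ℕ), ∀ i < m, (i ∈ X k ↔ i ∈ ulim X) := by
  induction m with
  | zero => exact Eventually.of_forall fun _ _ h => absurd h (Nat.not_lt_zero _)
  | succ m ih =>
    have h : ∀ᶠ k in (hyperfilter ℕ : Filter ℕ), (m ∈ X k ↔ m ∈ ulim X) := by
      by_cases h : m ∈ ulim X
      · exact Eventually.mono h fun k hk => iff_of_true hk h
      · exact (notMem_ulim.1 h).mono fun k hk => iff_of_false hk h
    filter_upwards [ih, h] with k h1 h2 i hi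
    rcases Nat.lt_succ_iff_lt_or_eq.1 hi with hi | rfl
    exacts [h1 i hi, h2]

theorem Cl.union {K L : Set (Set ℕ)} (hK : Cl K) (hL : Cl L) : Cl (K ∪ L) := fun X h =>
  (Ultrafilter.eventually_or.1 h).imp (hK X) (hL X)

theorem cl_singleton (Z : Set ℕ) : Cl {Z} := fun X h => by
  rw [mem_singleton_iff, ulim_congr (Y := fun _ => Z) h, ulim_const]

/-- Free proper filters that are increasing unions of closed families. -/
structure Good (F : Filter ℕ) : Prop where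
  neBot : F.NeBot
  free : F ≤ cofinite
  fsigma : ∃ C : ℕ → Set (Set ℕ), Monotone C ∧ (∀ n, Cl (C n)) ∧ ∀ X, X ∈ F ↔ ∃ n, X ∈ C n

theorem good_of_union {F : Filter ℕ} (h1 : F.NeBot) (h2 : F ≤ cofinite) {ι : Type} [Encodable ι]
    (C : ι → Set (Set ℕ)) (h3 : ∀ i, Cl (C i)) (h4 : ∀ X, X ∈ F ↔ ∃ i, X ∈ C i) : Good F := by
  let D : ℕ → Set (Set ℕ) := fun n => {X | ∃ i, Encodable.encode i < n ∧ X ∈ C i}
  refine ⟨h1, h2, D, fun m n hmn X ⟨i, hi, hX⟩ => ⟨i, hi.trans_le hmn, hX⟩, fun n => ?_,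
    fun X => (h4 X).trans ⟨fun ⟨i, hi⟩ => ⟨_, i, Nat.lt_succ_self _, hi⟩,
      fun ⟨_, i, _, hi⟩ => ⟨i, hi⟩⟩⟩
  induction n with
  | zero => exact fun X h => h.exists.elim fun _ ⟨_, h, _⟩ => absurd h (Nat.not_lt_zero _)
  | succ n ih =>
    by_cases h : ∃ i : ι, Encodable.encode i = n
    · obtain ⟨i, rfl⟩ := h
      convert ih.union (h3 i) using 1
      ext X
      constructor
      · rintro ⟨j, hj, hX⟩
        rcases Nat.lt_succ_iff_lt_or_eq.1 hj with hj | hj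
        exacts [Or.inl ⟨j, hj, hX⟩, Or.inr (Encodable.encode_injective hj ▸ hX)]
      · rintro (⟨j, hj, hX⟩ | hX)
        exacts [⟨j, by omega, hX⟩, ⟨i, by omega, hX⟩]
    · convert ih using 1
      ext X
      exact ⟨fun ⟨j, hj, hX⟩ => ⟨j, lt_of_le_of_ne (by omega) fun h' => h ⟨j, h'⟩, hX⟩,
        fun ⟨j, hj, hX⟩ => ⟨j, by omega, hX⟩⟩

theorem good_cofinite : Good cofinite := by
  refine good_of_union inferInstance le_rfl (fun n : ℕ => {X | ∀ i, n ≤ i → i ∈ X})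
    (fun n X h i hi => h.mono fun k hk => hk i hi) fun X => ?_
  rw [Nat.cofinite_eq_atTop]
  exact mem_atTop_sets

theorem Good.infinite {F : Filter ℕ} (h : Good F) {X : Set ℕ} (hX : X ∈ F) : X.Infinite := by
  intro hf
  have := h.neBot
  have h1 : Xᶜ ∈ F := h.free hf.compl_mem_cofinite
  simpa using F.nonempty_of_mem (inter_mem hX h1)

theorem Good.inf_principal {F : Filter ℕ} (h : Good F) {Y : Set ℕ} (hY : Yᶜ ∉ F) :
    Good (F ⊓ 𝓟 Y) := by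
  obtain ⟨C, -, h2, h3⟩ := h.fsigma
  refine good_of_union ⟨fun h' => hY (inf_principal_eq_bot.1 h')⟩ (inf_le_left.trans h.free)
    (fun n => {Z | Yᶜ ∪ Z ∈ C n}) (fun n X hX => ?_) fun Z => ?_
  · have := h2 n _ hX
    rwa [ulim_union, ulim_const] at this
  · rw [mem_inf_principal', h3]
    rfl

/-- A decreasing sequence of good filters has a good lower bound. -/
theorem good_iInf {F : ℕ → Filter ℕ} (h : ∀ n, Good (F n)) (hm : Antitone F) :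
    Good (⨅ n, F n) := by
  choose C h1 h2 h3 using fun n => (h n).fsigma
  have hd : Directed (· ≥ ·) F := hm.directed_ge
  refine good_of_union (iInf_neBot_of_directed' hd fun n => (h n).neBot)
    ((iInf_le F 0).trans (h 0).free) (fun p : ℕ × ℕ => C p.1 p.2) (fun p => h2 _ _) fun X => ?_
  rw [mem_iInf_of_directed hd]
  exact ⟨fun ⟨n, hn⟩ => ((h3 n X).1 hn).elim fun m hm => ⟨(n, m), hm⟩,
    fun ⟨p, hp⟩ => ⟨p.1, (h3 _ _).2 ⟨_, hp⟩⟩⟩

/-- Countably many dense requirements that are inherited by stronger filters can be met. -/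
theorem exists_good_forall {ι : Type} [Countable ι] (P : ι → Filter ℕ → Prop)
    (hm : ∀ i F G, G ≤ F → P i F → P i G) {F0 : Filter ℕ} (h0 : Good F0)
    (hd : ∀ i F, Good F → F ≤ F0 → ∃ G, Good G ∧ G ≤ F ∧ P i G) :
    ∃ G, Good G ∧ G ≤ F0 ∧ ∀ i, P i G := by
  rcases isEmpty_or_nonempty ι with hι | hι
  · exact ⟨F0, h0, le_rfl, fun i => hι.elim i⟩
  obtain ⟨e, he⟩ := exists_surjective_nat ι
  choose nx h1 h2 h3 using hd
  let S : ℕ → {F // Good F ∧ F ≤ F0} := fun n => Nat.rec ⟨F0, h0, le_rfl⟩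
    (fun n F => ⟨nx (e n) F.1 F.2.1 F.2.2, h1 _ _ _ _, (h2 _ _ _ _).trans F.2.2⟩) n
  refine ⟨⨅ n, (S n).1, good_iInf (fun n => (S n).2.1)
    (antitone_nat_of_succ_le fun n => h2 _ _ _ _), iInf_le (fun n => (S n).1) 0, fun i => ?_⟩
  obtain ⟨n, rfl⟩ := he i
  exact hm _ _ _ (iInf_le (fun n => (S n).1) (n + 1)) (h3 _ _ (S n).2.1 (S n).2.2)

/-- A convergent sequence of large sets with a large limit has a subsequence with positive
intersection. -/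
theorem Good.exists_subseq {F : Filter ℕ} (h : Good F) {Z : Set ℕ} (hZ : Z ∈ F) {Y : ℕ → Set ℕ}
    (hY : ∀ j, Y j ∈ F) (hYZ : ∀ j, ∀ i < j, (i ∈ Y j ↔ i ∈ Z)) :
    ∃ W : Set ℕ, Wᶜ ∉ F ∧ ∀ m, ∃ j, m ≤ j ∧ W ⊆ Y j := by
  obtain ⟨C, -, h2, h3⟩ := h.fsigma
  have := h.neBot
  have key : ∀ (n : ℕ) (W : Set ℕ), W ∈ F → ∃ m, ∀ X ∈ C n, ∃ i < m, i ∈ X ∧ i ∈ W := by
    intro n W hW
    by_contra hc
    push Not at hc
    choose X hX1 hX2 using hc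
    obtain ⟨i, h4, h5⟩ := F.nonempty_of_mem
      (inter_mem ((h3 _).2 ⟨n, h2 n X (Eventually.of_forall hX1)⟩) hW)
    obtain ⟨k, h6, h7⟩ := (Eventually.and h4 (ev_ge (i + 1))).exists
    exact hX2 k i h7 h6 h5
  choose m hm using key
  let S : ℕ → {W // W ∈ F} × ℕ := fun n => Nat.rec (⟨Z, hZ⟩, 0) (fun n p =>
    (⟨p.1.1 ∩ Y (p.2 + m n p.1.1 p.1.2 + 1), inter_mem p.1.2 (hY _)⟩,
      p.2 + m n p.1.1 p.1.2 + 1)) n
  have hs1 : ∀ n, (S (n + 1)).1.1 = (S n).1.1 ∩ Y (S (n + 1)).2 := fun _ => rfl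
  have hs2 : ∀ n, (S (n + 1)).2 = (S n).2 + m n (S n).1.1 (S n).1.2 + 1 := fun _ => rfl
  have hsZ : ∀ n, (S n).1.1 ⊆ Z := by
    intro n
    induction n with
    | zero => exact subset_rfl
    | succ n ih => exact inter_subset_left.trans ih
  have hmono : StrictMono fun n => (S n).2 :=
    strictMono_nat_of_lt_succ fun n => by rw [hs2]; omega
  refine ⟨⋂ n, (S n).1.1, fun hc => ?_, fun k => ⟨(S (k + 1)).2,
    (Nat.le_succ k).trans (hmono.id_le (k + 1)), (iInter_subset _ (k + 1)).trans inter_subset_right⟩⟩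
  obtain ⟨n, hn⟩ := (h3 _).1 hc
  obtain ⟨i, h4, h5, h6⟩ := hm n _ (S n).1.2 _ hn
  refine h5 (mem_iInter.2 fun k => ?_)
  rcases le_total k n with hk | hk
  · exact antitone_nat_of_succ_le (f := fun n => (S n).1.1) (fun _ => inter_subset_left) hk h6
  · induction hk with
    | refl => exact h6
    | @step k hk ih =>
      refine ⟨ih, (hYZ _ i ?_).2 (hsZ n h6)⟩
      have h7 : (S (n + 1)).2 ≤ (S (k + 1)).2 := hmono.monotone (Nat.succ_le_succ hk)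
      rw [hs2 n] at h7
      show i < (S (k + 1)).2
      omega

/-- Unions of at most `n` members of `K`. -/
def Un (K : Set (Set ℕ)) : ℕ → Set (Set ℕ)
  | 0 => {∅}
  | n + 1 => {B | ∃ A ∈ Un K n, ∃ Z ∈ insert ∅ K, B = A ∪ Z}

theorem Un.mono_left {K L : Set (Set ℕ)} (h : K ⊆ L) (n : ℕ) : Un K n ⊆ Un L n := by
  induction n with
  | zero => exact subset_rfl
  | succ n ih => exact fun _ ⟨A, hA, Z, hZ, h'⟩ => ⟨A, ih hA, Z, insert_subset_insert h hZ, h'⟩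

theorem Un.mono (K : Set (Set ℕ)) : Monotone (Un K) :=
  monotone_nat_of_le_succ fun _ A hA => ⟨A, hA, ∅, mem_insert _ _, (union_empty _).symm⟩

theorem Un.union {K : Set (Set ℕ)} {A : Set ℕ} {m : ℕ} (hA : A ∈ Un K m) (n : ℕ) :
    ∀ B ∈ Un K n, A ∪ B ∈ Un K (m + n) := by
  induction n with
  | zero => rintro _ rfl; simpa using hA
  | succ n ih =>
    rintro _ ⟨B, hB, Z, hZ, rfl⟩
    exact ⟨_, ih B hB, Z, hZ, (union_assoc _ _ _).symm⟩

theorem Un.compl_mem {F : Filter ℕ} {K : Set (Set ℕ)} (h : ∀ Z ∈ K, Zᶜ ∈ F) (n : ℕ) :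
    ∀ A ∈ Un K n, Aᶜ ∈ F := by
  induction n with
  | zero => rintro _ rfl; simp
  | succ n ih =>
    rintro _ ⟨A, hA, Z, hZ, rfl⟩
    rw [compl_union]
    refine inter_mem (ih A hA) ?_
    rcases hZ with rfl | hZ
    exacts [by simp, h Z hZ]

theorem Un.ulim_mem {K : ℕ → Set (Set ℕ)} {L : Set (Set ℕ)}
    (h : ∀ Z : ℕ → Set ℕ, (∀ᶠ k in (hyperfilter ℕ : Filter ℕ), Z k ∈ K k) → ulim Z ∈ L) (n : ℕ) :
    ∀ A : ℕ → Set ℕ, (∀ᶠ k in (hyperfilter ℕ : Filter ℕ), A k ∈ Un (K k) n) →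
      ulim A ∈ Un L n := by
  induction n with
  | zero => exact cl_singleton ∅
  | succ n ih =>
    intro A hA
    have h1 : ∀ k, ∃ B Z, A k ∈ Un (K k) (n + 1) →
        B ∈ Un (K k) n ∧ Z ∈ insert ∅ (K k) ∧ A k = B ∪ Z := fun k => by
      by_cases hk : A k ∈ Un (K k) (n + 1)
      · obtain ⟨B, hB, Z, hZ, h'⟩ := hk
        exact ⟨B, Z, fun _ => ⟨hB, hZ, h'⟩⟩
      · exact ⟨∅, ∅, fun h' => (hk h').elim⟩
    choose B Z hBZ using h1
    refine ⟨ulim B, ih B (hA.mono fun k hk => (hBZ k hk).1), ulim Z, ?_, ?_⟩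
    · rcases Ultrafilter.eventually_or.1 (hA.mono fun k hk => (hBZ k hk).2.1) with h2 | h2
      exacts [Or.inl (cl_singleton ∅ Z h2), Or.inr (h Z h2)]
    · rw [← ulim_union]
      exact ulim_congr (hA.mono fun k hk => (hBZ k hk).2.2)

/-- The covering property: if the intersection of each row of closed families consists of null
sets, then a diagonal intersection can be made null. -/
theorem Good.exists_diag {F : Filter ℕ} (h : Good F) (K : ℕ → ℕ → Set (Set ℕ))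
    (hK : ∀ n k, Cl (K n k)) (hm : ∀ n, Antitone (K n))
    (h0 : ∀ n Z, (∀ k, Z ∈ K n k) → Zᶜ ∈ F) :
    ∃ (g : ℕ → ℕ) (G : Filter ℕ), Good G ∧ G ≤ F ∧ ∀ Z, (∀ n, Z ∈ K n (g n)) → Zᶜ ∈ G := by
  obtain ⟨C, h1, h2, h3⟩ := h.fsigma
  have := h.neBot
  have key : ∀ n, ∃ k, ∀ X ∈ C n, ∀ A ∈ Un (K n k) n, ¬ X ⊆ A := by
    intro n
    by_contra hc
    push Not at hc
    choose X hX A hA hXA using hc
    have h4 := Un.ulim_mem (K := K n) (L := {Z | ∀ k, Z ∈ K n k}) (fun Z hZ k => hK n k Z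
      ((hZ.and (ev_ge k)).mono fun j hj => hm n hj.2 hj.1)) n A (Eventually.of_forall hA)
    obtain ⟨i, h5, h6⟩ := F.nonempty_of_mem (inter_mem
      ((h3 _).2 ⟨n, h2 n X (Eventually.of_forall hX)⟩) (Un.compl_mem (h0 n) n _ h4))
    exact h6 (Eventually.mono h5 fun k hk => hXA k hk)
  choose g hg using key
  let L : Set (Set ℕ) := {Z | ∀ n, Z ∈ K n (g n)}
  have hL : Cl L := fun Z hZ n => hK n _ Z (hZ.mono fun k hk => hk n)
  let D : ℕ → Set (Set ℕ) := fun n => {Y | ∃ X ∈ C n, ∃ A ∈ Un L n, X \ A ⊆ Y}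
  have hD : ∀ Y, (∃ n, Y ∈ D n) ↔ ∃ X ∈ F, ∃ n, ∃ A ∈ Un L n, X \ A ⊆ Y := by
    intro Y
    constructor
    · rintro ⟨n, X, hX, A, hA, h'⟩
      exact ⟨X, (h3 X).2 ⟨n, hX⟩, n, A, hA, h'⟩
    · rintro ⟨X, hX, n, A, hA, h'⟩
      obtain ⟨m, hm'⟩ := (h3 X).1 hX
      exact ⟨max m n, X, h1 (le_max_left _ _) hm', A, Un.mono L (le_max_right _ _) hA, h'⟩
  let G : Filter ℕ :=
    { sets := {Y | ∃ X ∈ F, ∃ n, ∃ A ∈ Un L n, X \ A ⊆ Y}
      univ_sets := ⟨univ, univ_mem, 0, ∅, rfl, subset_univ _⟩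
      sets_of_superset := fun ⟨X, hX, n, A, hA, h'⟩ h'' => ⟨X, hX, n, A, hA, h'.trans h''⟩
      inter_sets := fun ⟨X, hX, n, A, hA, h'⟩ ⟨X', hX', n', A', hA', h''⟩ =>
        ⟨X ∩ X', inter_mem hX hX', n + n', A ∪ A', Un.union hA n' A' hA', fun i hi =>
          ⟨h' ⟨hi.1.1, fun h => hi.2 (Or.inl h)⟩, h'' ⟨hi.1.2, fun h => hi.2 (Or.inr h)⟩⟩⟩ }
  have hGF : G ≤ F := fun X hX => ⟨X, hX, 0, ∅, rfl, sdiff_subset⟩
  refine ⟨g, G, good_of_union ⟨fun hb => ?_⟩ (hGF.trans h.free) D (fun n Y hY => ?_)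
    (fun Y => (hD Y).symm), hGF, fun Z hZ =>
      ⟨univ, univ_mem, 1, Z, ⟨∅, rfl, Z, Or.inr hZ, (empty_union _).symm⟩, fun i hi => hi.2⟩⟩
  · obtain ⟨n, X, hX, A, hA, h'⟩ := (hD ∅).2 (empty_mem_iff_bot.2 hb)
    exact hg n X hX A (Un.mono_left (K := L) (fun Z hZ => hZ n) n hA)
      (sdiff_eq_empty.1 (subset_empty_iff.1 h'))
  · have h4 : ∀ k, ∃ X A, Y k ∈ D n → X ∈ C n ∧ A ∈ Un L n ∧ X \ A ⊆ Y k := fun k => by
      by_cases hk : Y k ∈ D n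
      · obtain ⟨X, hX, A, hA, h'⟩ := hk
        exact ⟨X, A, fun _ => ⟨hX, hA, h'⟩⟩
      · exact ⟨∅, ∅, fun h' => (hk h').elim⟩
    choose X A hXA using h4
    refine ⟨ulim X, h2 n X (hY.mono fun k hk => (hXA k hk).1), ulim A,
      Un.ulim_mem (K := fun _ => L) hL n A (hY.mono fun k hk => (hXA k hk).2.1), fun i hi => ?_⟩
    filter_upwards [hY, hi.1, notMem_ulim.1 hi.2] with k h5 h6 h7
    exact (hXA k h5).2.2 ⟨h6, h7⟩

/-- A maximal filter of dense subsets of a preorder: it contains the dense open sets and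
decides every set somewhere below each point. -/
theorem exists_maximal_dense {α : Type*} [Preorder α] : ∃ 𝓕 : Filter α,
    (∀ D ∈ 𝓕, ∀ p, ∃ q ∈ D, q ≤ p) ∧
    (∀ E : Set α, (∀ p, ∃ q ∈ E, q ≤ p) → IsLowerSet E → E ∈ 𝓕) ∧
    ∀ (O : Set α) (p : α), ∃ q ≤ p, ∃ D ∈ 𝓕,
      (∀ r ∈ D, r ≤ q → r ∈ O) ∨ ∀ r ∈ D, r ≤ q → r ∉ O := by
  let S : Set (Set (Set α)) := {A | univ ∈ A ∧ (∀ D ∈ A, ∀ p, ∃ q ∈ D, q ≤ p) ∧
    ∀ D ∈ A, ∀ D' ∈ A, D ∩ D' ∈ A}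
  obtain ⟨A, -, hA⟩ := zorn_subset_nonempty S (fun c hc hch ⟨B, hB⟩ => ⟨⋃₀ c,
    ⟨⟨B, hB, (hc hB).1⟩, fun D ⟨B, hB, hD⟩ => (hc hB).2.1 D hD,
      fun D ⟨B, hB, hD⟩ D' ⟨B', hB', hD'⟩ => (hch.total hB hB').elim
        (fun h => ⟨B', hB', (hc hB').2.2 D (h hD) D' hD'⟩)
        fun h => ⟨B, hB, (hc hB).2.2 D hD D' (h hD')⟩⟩, fun _ => subset_sUnion_of_mem⟩) {univ}
    ⟨rfl, by rintro _ rfl p; exact ⟨p, trivial, le_rfl⟩, by rintro _ rfl _ rfl; simp⟩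
  obtain ⟨h1, h2, h3⟩ := hA.prop
  have key : ∀ O : Set α, (∀ D ∈ A, ∀ p, ∃ q ∈ O ∩ D, q ≤ p) → O ∈ A := by
    intro O hO
    have h4 : A ∪ {E | ∃ D ∈ A, E = O ∩ D} ∈ S := by
      refine ⟨Or.inl h1, ?_, ?_⟩
      · rintro D (hD | ⟨D, hD, rfl⟩)
        exacts [h2 D hD, hO D hD]
      · rintro D (hD | ⟨D, hD, rfl⟩) D' (hD' | ⟨D', hD', rfl⟩)
        · exact Or.inl (h3 D hD D' hD')
        · exact Or.inr ⟨_, h3 D hD D' hD', inter_left_comm _ _ _⟩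
        · exact Or.inr ⟨_, h3 D hD D' hD', inter_assoc _ _ _⟩
        · exact Or.inr ⟨_, h3 D hD D' hD', (inter_inter_distrib_left _ _ _).symm⟩
    exact hA.le_of_ge h4 subset_union_left (Or.inr ⟨univ, h1, (inter_univ _).symm⟩)
  refine ⟨⟨A, h1, fun {D E} hD hDE => key E fun D' hD' p => ?_, fun hD hD' => h3 _ hD _ hD'⟩,
    h2, fun E hE hl => key E fun D hD p => ?_, fun O p => ?_⟩
  · obtain ⟨q, hq, h⟩ := h2 _ (h3 D hD D' hD') p
    exact ⟨q, ⟨hDE hq.1, hq.2⟩, h⟩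
  · obtain ⟨q, hq, h⟩ := hE p
    obtain ⟨r, hr, h'⟩ := h2 D hD q
    exact ⟨r, ⟨hl h' hq, hr⟩, h'.trans h⟩
  · by_cases h : ∃ q ≤ p, ∃ D ∈ A, ∀ r ∈ D, r ≤ q → r ∉ O
    · obtain ⟨q, hq, D, hD, h⟩ := h
      exact ⟨q, hq, D, hD, Or.inr h⟩
    · push Not at h
      refine ⟨p, le_rfl, O ∪ {r | ¬ r ≤ p}, key _ fun D hD q => ?_,
        Or.inl fun r hr h' => hr.resolve_right fun h'' => h'' h'⟩
      obtain ⟨r, hr, h'⟩ := h2 D hD q
      by_cases h5 : r ≤ p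
      · obtain ⟨s, hs, h6, h7⟩ := h r h5 D hD
        exact ⟨s, ⟨Or.inl h7, hs⟩, h6.trans h'⟩
      · exact ⟨r, ⟨Or.inr h5, hr⟩, h'⟩

end Pool.Agent.P.MP_dbfd73_lc
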