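import Pool.Agent.P.MP_dbfd73_lc.Dense

/-!
The generic extension: no new reals, the generic filter is an ultrafilter, and its Fubini square
is not Tukey below it.
-/

universe u

set_option synthInstance.maxSize 16384

namespace Pool.Agent.P.MP_dbfd73_lc

open ZFSet Pool.Agent.Lib.Forcing

variable {M N : Set ZFSet.{u}} {R le G : ZFSet.{u}}

theorem Nice.isForcing (h : Nice M R le) : IsForcing R le :=
  ⟨h.1.1, h.1.2.1, fun p q r h1 h2 => h.1.2.2 q p h2 r h1⟩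

theorem r1_subset (R le q : ZFSet.{u}) : r1 R le q ⊆ first R := fun _ hz => by
  obtain ⟨B, hB, h⟩ := mem_first.1 hz
  exact mem_first.2 ⟨B, (mem_sep.1 hB).1, h⟩

theorem r1_mono (hP : IsForcing R le) {p q : ZFSet.{u}} (h : pair q p ∈ le) :
    r1 R le q ⊆ r1 R le p := fun _ hz => by
  obtain ⟨B, hB, h'⟩ := mem_first.1 hz
  exact mem_first.2 ⟨B, mem_sep.2 ⟨(mem_sep.1 hB).1, hP.trans _ _ _ (mem_sep.1 hB).2 h⟩, h'⟩

theorem mem_forced {X : ZFSet.{u}} :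
    X ∈ forced N R le G ↔ X ⊆ first R ∧ X ∈ N ∧ ∃ A ∈ G, r1 R le A ⊆ X := by
  rw [forced, mem_sep, mem_powerset]
  rfl

theorem first_mem (hM : IsZFModel M) (hR : R ∈ M) : first R ∈ M :=
  (inferInstance : ZTm fun _ e => first (e 0)).mem M hM (fun _ => R) fun _ => hR

theorem r1_mem (hM : IsZFModel M) (hR : R ∈ M) (hle : le ∈ M) {q : ZFSet.{u}} (hq : q ∈ M) :
    r1 R le q ∈ M :=
  (inferInstance : ZTm fun _ e => r1 (e 0) (e 1) (e 2)).mem M hM (cons R (cons le fun _ => q))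
    (cons_mem hR (cons_mem hle fun _ => hq))

theorem powIn_mem (hM : IsZFModel M) {a : ZFSet.{u}} (ha : a ∈ M) : powIn M a ∈ M :=
  (inferInstance : ZTm fun M e => powIn M (e 0)).mem M hM (fun _ => a) fun _ => ha

theorem forced_mem (hN : IsZFModel N) (hR : R ∈ N) (hle : le ∈ N) (hG : G ∈ N) :
    forced N R le G ∈ N := by
  have h := (inferInstance : ZTm fun M e => (powIn M (first (e 0))).sep
    fun X => ∃ A ∈ e 2, r1 (e 0) (e 1) A ⊆ X).mem N hN (cons R (cons le fun _ => G))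
    (cons_mem hR (cons_mem hle fun _ => hG))
  convert h using 1
  ext X
  rw [mem_forced, mem_sep, mem_powIn, and_assoc]
  rfl

section
variable (hM : IsZFModel M) (hR : R ∈ M) (hle : le ∈ M) (hP : IsForcing R le)
  (hG : IsGeneric M R le G)
include hM hR hle hP hG

theorem of_denseB {S x q : ZFSet.{u}} (hS : S ∈ M) (hx : x ∈ M) (hq : q ∈ G)
    (h : DenseB le S x q) : ∃ p ∈ G, pair x p ∈ S := by
  have := hM.zfm
  have := InM.mk hS
  have := InM.mk hx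
  exact hG.below hP hR hle (fun s => pair x s ∈ S) hq h

theorem mem_of_dist {a x : ZFSet.{u}} (h : Dist M R le a) (ha : a ∈ M) (hx : x ∈ genericExt M G)
    (hxa : x ⊆ a) : x ∈ M := by
  have := hM.zfm
  obtain ⟨S, hS, -, h1, h2⟩ := exists_nice hP hR hle hG hx ha
  obtain ⟨p0, hp0⟩ := hG.nonempty hP hR
  have := InM.mk hS
  have := InM.mk ha
  have := InM.mk hle
  obtain ⟨q, hq, h3⟩ := hG.below hP hR hle
    (fun q => ∀ y ∈ a, DenseB le S y q ∨ ∀ s, pair s q ∈ le → pair y s ∉ S)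
    (hR := by unfold DenseB; infer_instance) hp0
    fun q hq => h S hS (fun p q h3 y h4 => h1 y p q h4 h3) q (hP.left hq)
  have := InM.mk (mem_of_mem hR (hG.subset hq))
  convert sep_mem (fun y => DenseB le S y q) (h := by unfold DenseB; infer_instance) ha using 1
  ext y
  rw [mem_sep]
  refine ⟨fun hy => ⟨hxa hy, (h3 y (hxa hy)).resolve_right fun h4 => ?_⟩, fun hy =>
    (h2 y hy.1).2 (of_denseB hM hR hle hP hG hS (mem_of_mem ha hy.1) hq hy.2)⟩
  obtain ⟨p, hp, h5⟩ := (h2 y (hxa hy)).1 hy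
  obtain ⟨r, -, h6, h7⟩ := hG.directed p hp q hq
  exact h4 r h7 (h1 y p r h5 h6)

end

section
variable (hM : IsZFModel M) (hR : R ∈ M) (hle : le ∈ M) (h : Nice M R le)
  (hG : IsGeneric M R le G)
include hM hR hle h hG

theorem isUltra_forced :
    IsUltra (genericExt M G) (first R) (forced (genericExt M G) R le G) := by
  have := hM.zfm
  have hP := h.isForcing
  have hN := hM.genericExt hP hR hle hG
  have hs := subset_genericExt hP hR hG
  have := hN.zfm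
  refine ⟨forced_mem hN (hs hR) (hs hle) (generic_mem hP hR hG), fun X hX => (mem_forced.1 hX).1,
    fun h0 => ?_, fun X hX Y hY => ?_, fun X hX Y hY h1 h2 => ?_, fun X hX h1 => ?_⟩
  · obtain ⟨-, -, A, hA, h1⟩ := mem_forced.1 h0
    obtain ⟨m, -, -, h2⟩ := h.2.2.1 A (hG.subset hA) _ omega_zero
    exact notMem_empty _ (h1 h2)
  · obtain ⟨h1, h2, A, hA, h3⟩ := mem_forced.1 hX
    obtain ⟨-, h4, B, hB, h5⟩ := mem_forced.1 hY
    obtain ⟨C, hC, h6, h7⟩ := hG.directed A hA B hB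
    exact mem_forced.2 ⟨fun z hz => h1 (mem_inter.1 hz).1, inter_mem h2 h4, C, hC, fun z hz =>
      mem_inter.2 ⟨h3 (r1_mono hP h6 hz), h5 (r1_mono hP h7 hz)⟩⟩
  · obtain ⟨-, -, A, hA, h3⟩ := mem_forced.1 hX
    exact mem_forced.2 ⟨h2, hY, A, hA, fun z hz => h1 (h3 hz)⟩
  · have hXM := mem_of_dist hM hR hle hP hG h.2.2.2.2.1 (first_mem hM hR) hX h1
    obtain ⟨p0, hp0⟩ := hG.nonempty hP hR
    obtain ⟨q, hq, h2⟩ := hG.below hP hR hle (fun q => r1 R le q ⊆ X ∨ ∀ x ∈ r1 R le q, x ∉ X)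
      (hR := ((inferInstance : ZDf fun _ e => r1 (e 1) (e 2) (e 0) ⊆ e 3 ∨
        ∀ x ∈ r1 (e 1) (e 2) (e 0), x ∉ e 3).toDf hM).fix1 (ε := cons R (cons le fun _ => X))
        (cons_mem hR (cons_mem hle fun _ => hXM))) hp0
      fun q hq => h.2.2.2.2.2.1 X hXM q (hP.left hq)
    exact h2.imp (fun h3 => mem_forced.2 ⟨h1, hX, q, hq, h3⟩) fun h3 => mem_forced.2
      ⟨fun z hz => (mem_sdiff.1 hz).1, sdiff_mem (hs (first_mem hM hR)) hX, q, hq,
        fun z hz => mem_sdiff.2 ⟨r1_subset _ _ _ hz, h3 z hz⟩⟩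

theorem not_tukeyLE : ¬ TukeyLE (genericExt M G)
    (fubini (genericExt M G) (first R) (forced (genericExt M G) R le G))
    (forced (genericExt M G) R le G) := by
  rintro ⟨f, hf, hfun, hcof⟩
  have := hM.zfm
  have hP := h.isForcing
  have hN := hM.genericExt hP hR hle hG
  have hs := subset_genericExt hP hR hG
  have := hN.zfm
  have hU := isUltra_forced hM hR hle h hG
  have hD := first_mem hM hR
  have hpt : ∀ x ∈ first R, ∃ n ∈ omega, pt n = x := fun x hx => mem_img.1 (h.2.1 ▸ hx)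
  have hinf : ∀ X ∈ forced (genericExt M G) R le G, ∀ k ∈ omega, ∃ m ∈ omega, k ⊆ m ∧ pt m ∈ X := by
    intro X hX k hk
    obtain ⟨-, -, A, hA, h1⟩ := mem_forced.1 hX
    obtain ⟨m, h2, h3, h4⟩ := h.2.2.1 A (hG.subset hA) k hk
    exact ⟨m, h2, h3, h1 h4⟩
  set U := forced (genericExt M G) R le G
  have := InM.mk hf
  have := InM.mk hU.mem
  have ha1 := powIn_mem hM (prod_mem hD hD)
  have ha2 := powIn_mem hM hD
  have hZ := sep_mem (M := genericExt M G) (fun z => ∃ T Y, z = pair T Y ∧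
    ∀ Y' ∈ U, Y' ⊆ Y → ∀ W, pair Y' W ∈ f → W ⊆ T) (hs (prod_mem ha1 ha2))
  obtain ⟨S, hS, -, h1, h2⟩ := exists_nice hP hR hle hG hZ (prod_mem ha1 ha2)
  have h3 : ∀ T ∈ M, ∀ Y ∈ M, T ⊆ (first R).prod (first R) → Y ⊆ first R →
      ((∀ Y' ∈ U, Y' ⊆ Y → ∀ W, pair Y' W ∈ f → W ⊆ T) ↔ ∃ p ∈ G, pair (pair T Y) p ∈ S) := by
    intro T hT Y hY h3 h4
    have h5 := pair_mem_prod.2 ⟨mem_powIn.2 ⟨h3, hT⟩, mem_powIn.2 ⟨h4, hY⟩⟩
    rw [← h2 _ h5, mem_sep]
    refine ⟨fun H => ⟨h5, T, Y, rfl, H⟩, fun ⟨_, T', Y', h6, H⟩ => ?_⟩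
    obtain ⟨rfl, rfl⟩ := pair_inj.1 h6
    exact H
  obtain ⟨p0, hp0⟩ := hG.nonempty hP hR
  obtain ⟨q, hq, h4⟩ := hG.below hP hR hle (fun q => Alt M R le S q)
    (hR := ((inferInstance : ZDf fun M e => Alt M (e 1) (e 2) (e 3) (e 0)).toDf hM).fix1
      (ε := cons R (cons le fun _ => S)) (cons_mem hR (cons_mem hle fun _ => hS))) hp0
    fun q hq => h.2.2.2.2.2.2 S hS (fun p q h3 y h4 => h1 y p q h4 h3) q (hP.left hq)
  rcases h4 with ⟨T, hT, h4, h5, h6⟩ | ⟨n, hn, h4⟩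
  · have := InM.mk (hs hT)
    have h7 : T ∈ fubini (genericExt M G) (first R) U := by
      refine mem_sep.2 ⟨mem_powerset.2 h4, hs hT, hU.upward _ (mem_forced.2 ⟨subset_rfl, hs hD,
        q, hq, r1_subset _ _ _⟩) _ (sep_mem _ (hs hD) (h := ?_)) (fun s hs' => ?_) sep_subset⟩
      · have := InM.mk (hs hD)
        infer_instance
      · obtain ⟨n, hn, rfl⟩ := hpt s hs'
        obtain ⟨k, hk, h7⟩ := h5 n hn
        have := InM.mk (hs (mem_of_mem hD hs'))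
        refine mem_sep.2 ⟨hs', (hU.ultra _ (sep_mem _ (hs hD)) sep_subset).resolve_right
          fun h8 => ?_⟩
        obtain ⟨m, h9, h10, h11⟩ := hinf _ h8 k hk
        exact (mem_sdiff.1 h11).2 (mem_sep.2 ⟨(mem_sdiff.1 h11).1, h7 m h9 h10⟩)
    have h8 : ∃ Y ∈ U, ∀ Y' ∈ U, Y' ⊆ Y → ∀ W, pair Y' W ∈ f → W ⊆ T := by
      by_contra h8
      push Not at h8
      obtain ⟨W, h9, h10⟩ := (hcof _ (sep_mem (fun Y => ∃ W, pair Y W ∈ f ∧ ¬ W ⊆ T) hU.mem)
        ⟨sep_subset, fun X hX => by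
          obtain ⟨Y, h9, h10, h11⟩ := h8 X hX
          exact ⟨Y, mem_sep.2 ⟨h9, h11⟩, h10⟩⟩).2 T h7
      obtain ⟨-, Y, h11, h12⟩ := mem_sep.1 h9
      obtain ⟨h13, W', h14, h15⟩ := mem_sep.1 h11
      exact h15 ((hfun.2 Y h13).unique h12 h14 ▸ h10)
    obtain ⟨Y, hY, h9⟩ := h8
    obtain ⟨h10, h11, A, hA, h12⟩ := mem_forced.1 hY
    have h13 := mem_of_dist hM hR hle hP hG h.2.2.2.2.1 hD h11 h10
    obtain ⟨p, hp, h14⟩ := (h3 T hT Y h13 h4 h10).1 h9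
    obtain ⟨s, hs', h15, h16⟩ := hG.directed p hp A hA
    obtain ⟨s', -, h17, h18⟩ := hG.directed s hs' q hq
    exact h6 s' h18 Y h13 h10 (fun z hz => h12 (r1_mono hP (hP.trans _ _ _ h17 h16) hz))
      (h1 _ p s' h14 (hP.trans _ _ _ h17 h15))
  · have h5 : r1 R le q ∈ U := mem_forced.2 ⟨r1_subset _ _ _,
      hs (r1_mem hM hR hle (mem_of_mem hR (hG.subset hq))), q, hq, subset_rfl⟩
    obtain ⟨W, h6, -⟩ := hfun.2 _ h5
    obtain ⟨k, hk, h7, h8⟩ := hinf _ (mem_sep.1 (pair_mem_prod.1 (hfun.1 h6)).2).2.2 n hn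
    obtain ⟨m, hm, -, h9⟩ := hinf _ (mem_sep.1 h8).2 _ omega_zero
    obtain ⟨T, hT, Y, hY, h10, h11, h12, h13, h14⟩ := h4 k hk h7 m hm
    exact h12 ((h3 T hT Y hY h10 h11).2 (of_denseB hM hR hle hP hG hS (pair_mem hT hY) hq h14)
      _ h5 h13 W h6 (mem_sep.1 h9).2)

end

theorem GenericOver.nice {j : ZFSet.{u} → ZFSet.{u}} {R' le' : ZFSet.{u}}
    (h : GenericOver R le M j R' le' G) (hn : Nice Set.univ R le) :
    IsZFModel M ∧ Nice M R' le' := by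
  have h0 : (∅ : ZFSet.{u}) ∈ M := by
    obtain ⟨x, hx, h1⟩ := mem_wf.has_min M ⟨_, h.mem.1⟩
    rwa [← (ZFSet.eq_empty x).2 fun y hy => h1 y (h.transitive x hx y hy) hy]
  have hM : IsZFModel M := IsElem.isZFModel ⟨⟨h.transitive, h0⟩, h.elementary⟩
  refine ⟨hM, ((⟨fun _ _ => trivial, h.elementary⟩ : ElemMap M Set.univ j).transfer hM
    isZFModel_univ' (fun M e => Nice M (e 0) (e 1)) (cons R' fun _ => le')
    (cons_mem h.mem.1 fun _ => h.mem.2)).2 ?_⟩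
  simpa only [cons_zero, cons_succ, h.map.1, h.map.2] using hn

theorem exists_genericOver (hn : Nice Set.univ R le) {p : ZFSet.{u}} (hp : p ∈ R) :
    ∃ M j R' le' G, GenericOver R le M j R' le' G ∧ ∃ p' ∈ G, j p' = p := by
  obtain ⟨H, h1, h2, h3, -, h4, -⟩ := exists_hull (N := Set.univ) trivial (S := {R, le, p})
    (Set.subset_univ _) (fun _ x _ => x) fun _ _ _ _ _ => trivial
  obtain ⟨j, hj, hj'⟩ := exists_uncol h3
  have hM := isZFModel_col h3 isZFModel_univ' ⟨_, h2⟩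
  have hR : R ∈ H := h1 (by simp)
  have hle : le ∈ H := h1 (by simp)
  have hp' : p ∈ H := h1 (by simp)
  have h5 : Nice (col H '' H) (col H R) (col H le) := by
    refine (hj.transfer hM isZFModel_univ' (fun M e => Nice M (e 0) (e 1))
      (cons (col H R) fun _ => col H le) (cons_mem ⟨_, hR, rfl⟩ fun _ => ⟨_, hle, rfl⟩)).2 ?_
    simpa only [cons_zero, cons_succ, hj' _ hR, hj' _ hle] using hn
  obtain ⟨G, h6, h7⟩ := exists_generic ((h4 (Set.toFinite _).countable).image (col H))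
    h5.isForcing (mem_col.2 ⟨p, hp, hp', rfl⟩)
  exact ⟨_, j, _, _, G, ⟨hM.transitive, hj.elem, ⟨⟨_, hR, rfl⟩, ⟨_, hle, rfl⟩⟩,
    ⟨hj' _ hR, hj' _ hle⟩, h7⟩, _, h6, hj' _ hp'⟩

theorem cone_nonempty (A B : ZFSet.{u}) (h : pair A B ∈ ord) (n : ZFSet.{u}) (hn : n ∈ omega) :
    ∃ m ∈ omega, ∀ B' ∈ sp, res m B' = res m B → (cone sp ord (res n A) B').Nonempty := by
  obtain ⟨c, g, hc, hg, h1, rfl, rfl⟩ := pair_mem_ord.1 h
  obtain ⟨n, rfl⟩ := mem_omega_iff.1 hn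
  refine ⟨_, nat_mem_omega (n + 1), fun B' hB' h2 => ?_⟩
  obtain ⟨g', hg', rfl⟩ := mem_sp.1 hB'
  have h3 := ((res_enc_eq hg' hg).1 h2).2
  suffices H : ∃ f, f ∈ Cone n c g' by
    obtain ⟨f, hf⟩ := H
    exact ⟨⟨_, hf.1.mem⟩, (mem_cone hf.1 hc hg').2 hf⟩
  rcases n with _ | _ | k
  · exact ⟨g', hg', BLe.refl _, trivial⟩
  · have h4 : cond g' = cond g := congrArg cnd h3
    exact hg'.exists_pnt (h4 ▸ h1.cond.1 hc.zero.2)
  · obtain ⟨f, h4, h5, h6, -⟩ := hg'.exists_ext c k (fun j _ => (hc j).1) (fun j _ => (hc j).2)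
      ((show g' (k + 1) = g (k + 1) from h3) ▸ hc.mem_top h1 k) strat_univ (Y0 := Set.univ) trivial
      fun _ _ => Filter.univ_mem
    exact ⟨f, h4, h5, h6 k le_rfl⟩

theorem exists_space : ∃ R le : ZFSet.{u}, ClosedSeq R ∧ (∀ A ∈ R, ClosedSeq (below R le A)) ∧
    (∀ A B, pair A B ∈ le → ∀ n ∈ omega, ∃ m ∈ omega, ∀ B' ∈ R, res m B' = res m B →
      (cone R le (res n A) B').Nonempty) ∧
    (∀ a, a ∈ first R ↔ ∃ n ∈ omega, a = {pair ∅ n}) ∧ IsTRS R le ∧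
    (∀ p ∈ R, ∃ M j R' le' G, GenericOver R le M j R' le' G ∧ ∃ p' ∈ G, j p' = p) ∧
    ∀ M j R' le' G, GenericOver R le M j R' le' G →
      (∀ x ∈ genericExt M G, x ⊆ omega → x ∈ M) ∧
      IsUltra (genericExt M G) (first R') (forced (genericExt M G) R' le' G) ∧
      ¬ TukeyLE (genericExt M G)
        (fubini (genericExt M G) (first R') (forced (genericExt M G) R' le' G))
        (forced (genericExt M G) R' le' G) := by
  refine ⟨sp, ord, closedSeq_sp, fun _ => closedSeq_below, cone_nonempty,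
    fun _ => mem_first_sp, isTRS_sp, fun _ => exists_genericOver nice_univ, fun M j R' le' G h => ?_⟩
  obtain ⟨hM, hn⟩ := h.nice nice_univ
  exact ⟨fun x => mem_of_dist hM h.mem.1 h.mem.2 hn.isForcing h.generic hn.2.2.2.1 hM.infinity,
    isUltra_forced hM h.mem.1 h.mem.2 hn h.generic, not_tukeyLE hM h.mem.1 h.mem.2 hn h.generic⟩

end Pool.Agent.P.MP_dbfd73_lc
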