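import Pool.Agent.P.MP_dbfd73_lc.Stage

/-!
The Ramsey property of the space of branches.
-/

universe u

namespace Pool.Agent.P.MP_dbfd73_lc

open Filter Set ZFSet Pool.Agent.Lib.Forcing

variable {f g : ℕ → ZFSet.{u}}

/-- The first point of a branch. -/
noncomputable def pnt (f : ℕ → ZFSet.{u}) : ℕ := num (fst (f 0))

/-- The condition of a branch. -/
noncomputable def cond (f : ℕ → ZFSet.{u}) : Cond := cnd (f 0)

theorem Br.zero (hf : Br f) : f 0 = nd (pnt f) (cond f) ∧ pnt f ∈ (cond f).X := by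
  obtain ⟨x, p, h, h'⟩ := mem_L0.1 (hf 0).1
  simp [pnt, cond, h', h]

theorem BLe.cond (h : BLe f g) : cond f ≤ cond g := h 0

theorem Br.succ_large (hg : Br g) (y : ℕ) :
    {r | y ∈ (cond g).X → r ≤ cond g → nd y r ∈ snd (g 1)} ∈ fx y := by
  by_cases h : y ∈ (cond g).X
  · exact mem_of_superset (mem_Φ_zero.1 ((hg.leg 0).2.2.2 (nat y) (nat_mem_encS.2 h)))
      fun r hr _ => hr
  · exact univ_mem' fun _ h' => (h h').elim

theorem strat_univ : Strat.{u} fun _ _ => univ := fun _ _ _ => univ_mem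

/-- Extension from a point and a condition. -/
theorem Br.exists_ext0 (hg : Br g) {x : ℕ} {q : Cond} (hx : x ∈ q.X) (hq : q ≤ cond g)
    {D : ℕ → Set Cond} (hD : ∀ y, D y ∈ fx y) {τ : ℕ → ZFSet.{u} → Set ZFSet.{u}}
    (hτ : Strat τ) : ∃ h, Br h ∧ BLe h g ∧ pnt h = x ∧ cond h ≤ q ∧
      ∀ f, Br f → BLe f h → cond f ∈ D (pnt f) ∧ Obey τ 0 f := by
  obtain ⟨r, ⟨h1, h2⟩, h3, h4⟩ := fx_dense (inter_mem (hD x) (hg.succ_large x)) hx
  obtain ⟨h, h5, h6, h7, h8⟩ := hg.exists_ext (fun _ => nd x r) 0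
    (fun k hk => by obtain rfl := Nat.le_zero.1 hk; exact mem_L0.2 ⟨x, r, h3, rfl⟩)
    (fun k hk => absurd hk (Nat.not_lt_zero _)) (h2 (hq.1 hx) (h4.trans hq)) hτ
    (Y0 := {b | cnd b ∈ D (num (fst b))}) (by simpa using h1) (fun d hd => by
      obtain ⟨y, -, rfl⟩ := mem_encS.1 hd
      exact mem_Φ_zero.2 (mem_of_superset (hD y) fun s hs _ => by simpa using hs))
  exact ⟨h, h5, h6, by simp [pnt, h7 0 le_rfl], by simpa [cond, h7 0 le_rfl] using h4, h8⟩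

theorem exists_br (x : ℕ) : ∃ h : ℕ → ZFSet.{u}, Br h ∧ pnt h = x := by
  obtain ⟨h, h1, h2, -⟩ := exists_ext (fun _ => nd.{u} x default) 0
    (fun k hk => by obtain rfl := Nat.le_zero.1 hk; exact mem_L0.2 ⟨x, default, trivial, rfl⟩)
    (fun k hk => absurd hk (Nat.not_lt_zero _)) strat_univ (Y0 := univ) trivial
    fun _ _ => univ_mem
  exact ⟨h, h1, by simp [pnt, h2 0 le_rfl]⟩

/-- Branches with compatible conditions are compatible. -/
theorem Br.exists_le_le (hf : Br f) (hg : Br g) {q : Cond} (h1 : q ≤ cond f) (h2 : q ≤ cond g) :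
    ∃ h, Br h ∧ BLe h f ∧ BLe h g ∧ cond h ≤ q := by
  obtain ⟨x, hx⟩ := (q.good.infinite q.mem).nonempty
  obtain ⟨h, h3, h4, -, h5, h6⟩ := hg.exists_ext0 hx h2 hf.succ_large hf.strat_stay
  obtain ⟨h7, h8⟩ := h6 h h3 (BLe.refl h)
  refine ⟨h, h3, h3.le_of_obey hf ?_ h8, h4, h5⟩
  rw [h3.zero.1]
  exact h7 ((h5.trans h1).1 h3.zero.2) (h5.trans h1)

/-- All points can be decided at once. -/
theorem exists_decide (O : Set ZFSet.{u}) (p : Cond) : ∃ q ≤ p, ∃ D : ℕ → Set Cond,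
    (∀ y, D y ∈ fx y) ∧ ∃ ε : Prop, ∀ x, ∀ r ∈ D x, x ∈ r.X → r ≤ q → (nd x r ∈ O ↔ ε) := by
  obtain ⟨G, h1, h2, h3⟩ := exists_good_forall
    (fun (x : ℕ) G => ∃ D ∈ fx x, ∃ ε : Prop, ∀ r ∈ D, r.F ≤ G → (nd x r ∈ O ↔ ε))
    (fun x F G h ⟨D, hD, ε, H⟩ => ⟨D, hD, ε, fun r hr h' => H r hr (h'.trans h)⟩) p.good (by
      intro x F hF _
      obtain ⟨q, h1, h2, D, hD, h3⟩ := fx_decide {r | nd x r ∈ O}
        (p := ⟨univ, F, hF, univ_mem⟩) (x := x) trivial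
      have hE : {r : Cond | r.X ⊆ q.X ∨ r.X ∩ q.X ⊆ {x}} ∈ fx x := by
        refine fx_open (fun r hr => ?_) fun r s h hr => hr.imp (h.1.trans ·)
          ((inter_subset_inter_left _ h.1).trans ·)
        by_cases h : q.Xᶜ ∈ r.F
        · exact ⟨⟨r.X ∩ (q.Xᶜ ∪ {x}), r.F, r.good,
            inter_mem r.mem (mem_of_superset h subset_union_left)⟩,
            Or.inr fun i hi => hi.1.2.resolve_left fun h' => h' hi.2, ⟨hr, Or.inr rfl⟩,
            inter_subset_left, le_rfl⟩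
        · exact ⟨⟨r.X ∩ q.X, r.F ⊓ 𝓟 q.X, r.good.inf_principal h,
            inter_mem_inf r.mem (mem_principal_self _)⟩, Or.inl inter_subset_right, ⟨hr, h2⟩,
            inter_subset_left, inf_le_left⟩
      have h4 : ∀ r ∈ D ∩ {r : Cond | r.X ⊆ q.X ∨ r.X ∩ q.X ⊆ {x}}, r.F ≤ q.F → r ≤ q :=
        fun r hr h => ⟨hr.2.resolve_right fun h' => r.good.infinite (inter_mem r.mem (h q.mem))
          ((finite_singleton x).subset h'), h⟩
      refine ⟨q.F, q.good, h1.2, _, inter_mem hD hE, ?_⟩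
      rcases h3 with h3 | h3
      exacts [⟨True, fun r hr h => iff_true_intro (h3 r hr.1 (h4 r hr h))⟩,
        ⟨False, fun r hr h => iff_false_intro (h3 r hr.1 (h4 r hr h))⟩])
  choose D hD ε hε using h3
  by_cases h : {x | ε x}ᶜ ∈ G
  · exact ⟨⟨p.X ∩ {x | ε x}ᶜ, G, h1, inter_mem (h2 p.mem) h⟩, ⟨inter_subset_left, h2⟩, D, hD,
      False, fun x r hr hx hq => (hε x r hr hq.2).trans (iff_false_intro (hq.1 hx).2)⟩
  · exact ⟨⟨p.X ∩ {x | ε x}, G ⊓ 𝓟 {x | ε x}, h1.inf_principal h,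
      inter_mem_inf (h2 p.mem) (mem_principal_self _)⟩, ⟨inter_subset_left, inf_le_left.trans h2⟩,
      D, hD, True, fun x r hr hx hq =>
        (hε x r hr (hq.2.trans inf_le_left)).trans (iff_true_intro (hq.1 hx).2)⟩

/-- Two branches have the same approximation of length `n`. -/
def Agree : ℕ → (ℕ → ZFSet.{u}) → (ℕ → ZFSet.{u}) → Prop
  | 0, _, _ => True
  | 1, f, g => pnt f = pnt g
  | k + 2, f, g => f k = g k

/-- The basic set of the branches below `g` that agree with `c` up to `n`. -/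
def Cone (n : ℕ) (c g : ℕ → ZFSet.{u}) : Set (ℕ → ZFSet.{u}) := {f | Br f ∧ BLe f g ∧ Agree n f c}

def RamseyB (A : Set (ℕ → ZFSet.{u})) : Prop := ∀ n c g, Br c → Br g → BLe c g →
  ∃ h ∈ Cone n c g, (∀ f ∈ Cone n c h, f ∈ A) ∨ ∀ f ∈ Cone n c h, f ∉ A

def NullB (A : Set (ℕ → ZFSet.{u})) : Prop := ∀ n c g, Br c → Br g → BLe c g →
  ∃ h ∈ Cone n c g, ∀ f ∈ Cone n c h, f ∉ A

def OpenB (A : Set (ℕ → ZFSet.{u})) : Prop :=
  ∀ f, Br f → f ∈ A → ∃ n, ∀ f' ∈ Cone n f f, f' ∈ A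

/-- Below a suitable strategy membership depends only on the node of level `k0`. -/
def Det (A : Set (ℕ → ZFSet.{u})) (k0 : ℕ) : Prop := ∃ τ, Strat τ ∧ ∃ O : Set ZFSet.{u},
  ∀ f, Br f → Obey τ k0 f → (f ∈ A ↔ f k0 ∈ O)

theorem or_of_iff {α : Type*} {S A : Set α} {ε : Prop} (h : ∀ f ∈ S, f ∈ A ↔ ε) :
    (∀ f ∈ S, f ∈ A) ∨ ∀ f ∈ S, f ∉ A := by
  by_cases hε : ε
  exacts [Or.inl fun f hf => (h f hf).2 hε, Or.inr fun f hf h' => hε ((h f hf).1 h')]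

theorem ramseyB_of_det {A : Set (ℕ → ZFSet.{u})} (h : ∀ k0, Det A k0) : RamseyB A := by
  intro n c g hc hg hcg
  rcases n with _ | _ | k
  · obtain ⟨τ, hτ, O, H⟩ := h 0
    obtain ⟨q, h1, D, hD, ε, h2⟩ := exists_decide O (cond g)
    obtain ⟨x, hx⟩ := (q.good.infinite q.mem).nonempty
    obtain ⟨h, h3, h4, -, h5, h6⟩ := hg.exists_ext0 hx h1 hD hτ
    refine ⟨h, ⟨h3, h4, trivial⟩, or_of_iff (ε := ε) fun f ⟨hf, h7, _⟩ => ?_⟩
    rw [H f hf (h6 f hf h7).2, hf.zero.1]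
    exact h2 _ _ (h6 f hf h7).1 hf.zero.2 (h7.cond.trans h5)
  · obtain ⟨τ, hτ, O, H⟩ := h 0
    obtain ⟨q, h1, hx, D, hD, h2⟩ := fx_decide {r | nd (pnt c) r ∈ O} (hcg.cond.1 hc.zero.2)
    obtain ⟨h, h3, h4, h5, h6, h7⟩ := hg.exists_ext0 hx h1
      (D := fun y => {r | y = pnt c → r ∈ D}) (fun y => by
        by_cases hy : y = pnt c
        · subst hy
          exact mem_of_superset hD fun r hr _ => hr
        · exact univ_mem' fun _ h' => (hy h').elim) hτ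
    refine ⟨h, ⟨h3, h4, h5⟩, h2.imp (fun h2 f ⟨hf, h8, h9⟩ => ?_) fun h2 f ⟨hf, h8, h9⟩ => ?_⟩ <;>
    · rw [H f hf (h7 f hf h8).2, hf.zero.1, show pnt f = pnt c from h9]
      exact h2 _ ((h7 f hf h8).1 h9) (h8.cond.trans h6)
  · obtain ⟨τ, hτ, O, H⟩ := h k
    obtain ⟨h, h3, h4, h5, h6⟩ := hg.exists_ext c k (fun j _ => (hc j).1) (fun j _ => (hc j).2)
      (hc.mem_top hcg k) hτ (Y0 := univ) trivial fun _ _ => univ_mem
    refine ⟨h, ⟨h3, h4, h5 k le_rfl⟩, or_of_iff (ε := c k ∈ O) fun f ⟨hf, h7, h8⟩ => ?_⟩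
    rw [H f hf (h6 f hf h7).2, show f k = c k from h8]

theorem Agree.mono (hf : Br f) (hg : Br g) {m n : ℕ} (hmn : m ≤ n) (h : Agree n f g) :
    Agree m f g := by
  rcases m with _ | _ | m
  · trivial
  · rcases n with _ | _ | n
    · omega
    · exact h
    · exact congrArg (fun a => num (fst a)) (hf.eq_down hg h 0 (Nat.zero_le _))
  · obtain ⟨n, rfl⟩ : ∃ k, n = k + 2 := ⟨n - 2, by omega⟩
    exact hf.eq_down hg h m (by omega)

theorem Agree.refl (n : ℕ) (f : ℕ → ZFSet.{u}) : Agree n f f := by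
  rcases n with _ | _ | n
  exacts [trivial, rfl, rfl]

/-- The node `a` of level `k` has a strategy that leads into `A`. -/
def Acc (A : Set (ℕ → ZFSet.{u})) (k : ℕ) (a : ZFSet.{u}) : Prop :=
  ∃ σ, Strat σ ∧ ∀ f, Br f → f k = a → Obey σ k f → f ∈ A

theorem acc_of_cone {A : Set (ℕ → ZFSet.{u})} (hg : Br g) {k : ℕ}
    (h : ∀ f ∈ Cone (k + 2) g g, f ∈ A) : Acc A k (g k) :=
  ⟨stay g, hg.strat_stay, fun f hf h1 h2 =>
    h f ⟨hf, hf.le_of_obey hg (h1 ▸ (hg.leg k).2.1) h2, h1⟩⟩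

theorem exists_strat_acc (A : Set (ℕ → ZFSet.{u})) (k : ℕ) :
    ∃ τ, Strat τ ∧ ∀ f, Br f → Acc A k (f k) → Obey τ k f → f ∈ A := by
  have h : ∀ a, ∃ σ, Strat σ ∧ (Acc A k a → ∀ f, Br f → f k = a → Obey σ k f → f ∈ A) := by
    intro a
    by_cases h : Acc A k a
    · obtain ⟨σ, h1, h2⟩ := h
      exact ⟨σ, h1, fun _ => h2⟩
    · exact ⟨_, strat_univ, fun h' => (h h').elim⟩
  choose σ h1 h2 using h
  obtain ⟨τ, h3, h4⟩ := exists_glue k σ h1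
  exact ⟨τ, h3, fun f hf h5 h6 => h2 _ h5 f hf rfl (h4 f hf h6)⟩

theorem acc_of_large {A : Set (ℕ → ZFSet.{u})} {k : ℕ} {a : ZFSet.{u}}
    (h : {W | Acc A (k + 1) (pair a W)} ∈ (stage k).V a) : Acc A k a := by
  obtain ⟨τ, h1, h2⟩ := exists_strat_acc A (k + 1)
  refine ⟨fun j d => τ j d ∩ {W | j = k → d = a → Acc A (k + 1) (pair a W)}, fun j d hd =>
    inter_mem (h1 j d hd) ?_, fun f hf h3 h4 => h2 f hf ?_ fun j hj => (h4 j (by omega)).1⟩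
  · by_cases h5 : j = k ∧ d = a
    · obtain ⟨rfl, rfl⟩ := h5
      exact mem_of_superset h fun W hW _ _ => hW
    · exact univ_mem' fun _ h6 h7 => (h5 ⟨h6, h7⟩).elim
  · rw [hf.eq_pair k, h3]
    exact (h4 k le_rfl).2 rfl h3

theorem det_of_openB {A : Set (ℕ → ZFSet.{u})} (hA : OpenB A) (k0 : ℕ) : Det A k0 := by
  obtain ⟨τ, h1, h2⟩ := exists_strat_acc A k0
  refine ⟨fun k d => τ k d ∩ {W | ¬ Acc A k d → ¬ Acc A (k + 1) (pair d W)}, fun k d hd =>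
    inter_mem (h1 k d hd) ?_, {a | Acc A k0 a}, fun f hf ho =>
      ⟨fun h => ?_, fun h => h2 f hf h fun k hk => (ho k hk).1⟩⟩
  · by_cases h : Acc A k d
    · exact univ_mem' fun _ h' => (h' h).elim
    · exact mem_of_superset (Ultrafilter.compl_mem_iff_notMem.2 (mt acc_of_large h))
        fun W hW _ => hW
  · by_contra h3
    have h4 : ∀ k, k0 ≤ k → ¬ Acc A k (f k) := by
      intro k hk
      induction hk with
      | refl => exact h3
      | @step k hk ih => rw [hf.eq_pair k]; exact (ho k hk).2 ih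
    obtain ⟨n, hn⟩ := hA f hf h
    exact h4 (k0 + n) (Nat.le_add_right _ _) (acc_of_cone hf fun f' hf' =>
      hn f' ⟨hf'.1, hf'.2.1, hf'.2.2.mono hf'.1 hf (by omega)⟩)

theorem ramseyB_of_openB {A : Set (ℕ → ZFSet.{u})} (hA : OpenB A) : RamseyB A :=
  ramseyB_of_det (det_of_openB hA)

theorem nullB_iUnion {N : ℕ → Set (ℕ → ZFSet.{u})} (h : ∀ m, NullB (N m)) : NullB (⋃ m, N m) := by
  have h1 : ∀ m k, ∃ τ, Strat τ ∧ ∀ f, Br f → Obey τ k f → f ∉ N m := by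
    intro m k
    obtain ⟨τ, h1, h2⟩ := exists_strat_acc (N m)ᶜ k
    refine ⟨τ, h1, fun f hf => h2 f hf ?_⟩
    obtain ⟨g, ⟨hg, -, h3⟩, h4⟩ := h m (k + 2) f f hf hf (BLe.refl f)
    rw [← show g k = f k from h3]
    exact acc_of_cone hg fun f' hf' => h4 f' ⟨hf'.1, hf'.2.1, Eq.trans hf'.2.2 h3⟩
  choose τ h2 h3 using h1
  have h4 : ∀ k0, ∃ σ, Strat σ ∧ ∀ f, Br f → Obey σ k0 f → f ∉ ⋃ m, N m := fun k0 =>
    ⟨fun k d => ⋂ m ∈ Iic k, τ m (max m k0) k d, fun k d hd =>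
      (biInter_mem (finite_le_nat k)).2 fun m _ => h2 _ _ k d hd, fun f hf ho hm => by
        obtain ⟨m, hm⟩ := mem_iUnion.1 hm
        exact h3 m (max m k0) f hf (fun k hk => mem_iInter₂.1 (ho k (le_of_max_le_right hk)) m
          (le_of_max_le_left hk)) hm⟩
  intro n c g hc hg hcg
  obtain ⟨h, h5, h6⟩ := ramseyB_of_det (A := ⋃ m, N m) (fun k0 => by
    obtain ⟨σ, h5, h6⟩ := h4 k0
    exact ⟨σ, h5, ∅, fun f hf ho => iff_of_false (h6 f hf ho) id⟩) n c g hc hg hcg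
  rcases h6 with h6 | h6
  · obtain ⟨σ, h7, h8⟩ := h4 n
    obtain ⟨h', h9, h10, h11, h12⟩ := h5.1.exists_ext h n (fun j _ => (h5.1 j).1)
      (fun j _ => (h5.1 j).2) (h5.1.leg n).2.1 h7 (Y0 := univ) trivial fun _ _ => univ_mem
    have h13 : Agree n h' h := Agree.mono h9 h5.1 (Nat.le_add_right n 2) (h11 n le_rfl)
    refine (h8 h' h9 (h12 h' h9 (BLe.refl _)).2 (h6 h' ⟨h9, h10, ?_⟩)).elim
    rcases n with _ | _ | n
    exacts [trivial, Eq.trans h13 h5.2.2, Eq.trans h13 h5.2.2]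
  · exact ⟨h, h5, h6⟩

end Pool.Agent.P.MP_dbfd73_lc
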