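import Pool.Agent.P.MP_dbfd73_lc.Filt
import Pool.Agent.Lib.Constructible.Choice

/-!
The tree of approximations. A node of the first level is a point together with a condition; a
node of the next level is a node together with the set of nodes of its own level that stay
available below it.
-/

universe u

namespace Pool.Agent.P.MP_dbfd73_lc

open Filter Set ZFSet Pool.Agent.Lib.Forcing

/-- A condition: a good filter with one of its elements. -/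
structure Cond where
  X : Set ℕ
  F : Filter ℕ
  good : Good F
  mem : X ∈ F

instance : Preorder Cond where
  le p q := p.X ⊆ q.X ∧ p.F ≤ q.F
  le_refl _ := ⟨subset_rfl, le_rfl⟩
  le_trans _ _ _ h h' := ⟨h.1.trans h'.1, h.2.trans h'.2⟩

instance : Inhabited Cond := ⟨⟨univ, cofinite, good_cofinite, univ_mem⟩⟩

theorem exists_fx (x : ℕ) : ∃ 𝓕 : Filter Cond,
    (∀ D ∈ 𝓕, ∀ p : Cond, x ∈ p.X → ∃ q ∈ D, x ∈ q.X ∧ q ≤ p) ∧
    (∀ E : Set Cond, (∀ p : Cond, x ∈ p.X → ∃ q ∈ E, x ∈ q.X ∧ q ≤ p) → IsLowerSet E → E ∈ 𝓕) ∧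
    {q | x ∈ q.X} ∈ 𝓕 ∧
    ∀ (O : Set Cond) (p : Cond), x ∈ p.X → ∃ q ≤ p, x ∈ q.X ∧ ∃ D ∈ 𝓕,
      (∀ r ∈ D, r ≤ q → r ∈ O) ∨ ∀ r ∈ D, r ≤ q → r ∉ O := by
  obtain ⟨𝓕, h1, h2, h3⟩ := exists_maximal_dense (α := {p : Cond // x ∈ p.X})
  refine ⟨𝓕.map Subtype.val, fun D hD p hp => ?_, fun E hE hl => ?_,
    Filter.mem_map.2 (univ_mem' fun q => q.2), fun O p hp => ?_⟩
  · obtain ⟨q, hq, h⟩ := h1 _ hD ⟨p, hp⟩
    exact ⟨q, hq, q.2, h⟩
  · refine h2 _ (fun p => ?_) fun p q h hp => hl h hp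
    obtain ⟨q, hq, h, h'⟩ := hE p p.2
    exact ⟨⟨q, h⟩, hq, h'⟩
  · obtain ⟨q, hq, D, hD, h⟩ := h3 (Subtype.val ⁻¹' O) ⟨p, hp⟩
    refine ⟨q, hq, q.2, Subtype.val '' D, image_mem_map hD, h.imp ?_ ?_⟩ <;>
    · rintro h _ ⟨r, hr, rfl⟩ h'
      exact h r hr h'

/-- The maximal filter of dense sets of conditions that contain the point `x`. -/
noncomputable def fx (x : ℕ) : Filter Cond := (exists_fx x).choose

theorem fx_dense {x : ℕ} {D : Set Cond} (hD : D ∈ fx x) {p : Cond} (hp : x ∈ p.X) :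
    ∃ q ∈ D, x ∈ q.X ∧ q ≤ p := (exists_fx x).choose_spec.1 D hD p hp

theorem fx_open {x : ℕ} {E : Set Cond} (h : ∀ p : Cond, x ∈ p.X → ∃ q ∈ E, x ∈ q.X ∧ q ≤ p)
    (hl : IsLowerSet E) : E ∈ fx x := (exists_fx x).choose_spec.2.1 E h hl

theorem fx_mem (x : ℕ) : {q | x ∈ q.X} ∈ fx x := (exists_fx x).choose_spec.2.2.1

theorem fx_decide {x : ℕ} (O : Set Cond) {p : Cond} (hp : x ∈ p.X) : ∃ q ≤ p, x ∈ q.X ∧
    ∃ D ∈ fx x, (∀ r ∈ D, r ≤ q → r ∈ O) ∨ ∀ r ∈ D, r ≤ q → r ∉ O :=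
  (exists_fx x).choose_spec.2.2.2 O p hp

/-- A set of natural numbers as a subset of `ω`. -/
def encS (Y : Set ℕ) : ZFSet.{u} := omega.sep fun z => ∃ n ∈ Y, nat n = z

theorem mem_encS {Y : Set ℕ} {z : ZFSet.{u}} : z ∈ encS Y ↔ ∃ n ∈ Y, nat n = z := by
  rw [encS, ZFSet.mem_sep]
  exact ⟨fun h => h.2, fun ⟨n, hn, h⟩ => ⟨h ▸ nat_mem_omega n, n, hn, h⟩⟩

theorem nat_mem_encS {Y : Set ℕ} {n : ℕ} : nat.{u} n ∈ encS Y ↔ n ∈ Y := by
  rw [mem_encS]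
  exact ⟨fun ⟨m, hm, h⟩ => nat_inj.1 h ▸ hm, fun h => ⟨n, h, rfl⟩⟩

theorem encS_injective : Function.Injective encS.{u} := fun X Y h => by
  ext n
  rw [← nat_mem_encS.{u}, h, nat_mem_encS]

/-- A condition as a set. -/
def cd (p : Cond) : ZFSet.{u} :=
  pair (encS p.X) ((powerset omega).sep fun z => ∃ Y ∈ p.F, encS Y = z)

theorem cd_injective : Function.Injective cd.{u} := by
  rintro ⟨X, F, _, _⟩ ⟨X', F', _, _⟩ h
  obtain ⟨h1, h2⟩ := pair_inj.1 h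
  obtain rfl : X = X' := encS_injective h1
  have key : ∀ (G : Filter ℕ) (Y : Set ℕ), encS.{u} Y ∈ (powerset omega).sep
      (fun z => ∃ Y ∈ G, encS Y = z) ↔ Y ∈ G := fun G Y => by
    rw [ZFSet.mem_sep]
    exact ⟨fun ⟨_, Z, hZ, h⟩ => encS_injective h ▸ hZ,
      fun h => ⟨mem_powerset.2 sep_subset, Y, h, rfl⟩⟩
  obtain rfl : F = F' := Filter.ext fun Y => by rw [← key F, ← key F', h2]
  rfl

/-- The node with point `x` and condition `p`. -/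
def nd (x : ℕ) (p : Cond) : ZFSet.{u} := pair (nat x) (cd p)

/-- The number coded by a set. -/
noncomputable def num (d : ZFSet.{u}) : ℕ := Function.invFun nat d

@[simp] theorem num_nat (x : ℕ) : num (nat.{u} x) = x :=
  Function.leftInverse_invFun (fun _ _ h => nat_inj.1 h) x

/-- The condition of a node of the first level. -/
noncomputable def cnd (a : ZFSet.{u}) : Cond := Function.invFun cd (snd a)

@[simp] theorem cnd_nd (x : ℕ) (p : Cond) : cnd (nd.{u} x p) = p := by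
  rw [cnd, nd, snd_pair]
  exact Function.leftInverse_invFun cd_injective p

@[simp] theorem fst_nd (x : ℕ) (p : Cond) : fst (nd.{u} x p) = nat x := fst_pair _ _

/-- One level of the tree: the nodes `L`, the parents `top a` that are available below `a`, the
order, and the filters of large sets of children of `d` below `a`. -/
structure Stage where
  L : ZFSet.{u}
  top : ZFSet.{u} → ZFSet.{u}
  le : ZFSet.{u} → ZFSet.{u} → Prop
  Φ : ZFSet.{u} → ZFSet.{u} → Filter ZFSet.{u}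
  refl : ∀ a, le a a
  trans : ∀ a b c, le a b → le b c → le a c
  par_mem : ∀ a ∈ L, fst a ∈ top a
  top_mono : ∀ a b, le a b → top a ⊆ top b
  Φ_mono : ∀ a b d, le a b → Φ a d ≤ Φ b d
  key : ∀ a ∈ L, ∀ d ∈ top a, {c | c ∈ L ∧ le c a ∧ fst c = d} ∈ Φ a d

namespace Stage

variable (S : Stage.{u})

/-- `Z` is an admissible set of nodes that stay available below `a`. -/
def Leg (a Z : ZFSet.{u}) : Prop :=
  a ∈ S.L ∧ a ∈ Z ∧ (∀ c ∈ Z, c ∈ S.L ∧ S.le c a) ∧ ∀ d ∈ S.top a, {c | c ∈ Z} ∈ S.Φ a d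

theorem leg_sep {a : ZFSet.{u}} (ha : a ∈ S.L) {Y : Set ZFSet.{u}} (h1 : a ∈ Y)
    (h2 : ∀ d ∈ S.top a, Y ∈ S.Φ a d) : S.Leg a (S.L.sep fun c => S.le c a ∧ c ∈ Y) :=
  ⟨ha, ZFSet.mem_sep.2 ⟨ha, S.refl a, h1⟩,
    fun _ hc => ⟨(ZFSet.mem_sep.1 hc).1, (ZFSet.mem_sep.1 hc).2.1⟩, fun d hd =>
      mem_of_superset (inter_mem (S.key a ha d hd) (h2 d hd))
        fun _ hc => ZFSet.mem_sep.2 ⟨hc.1.1, hc.1.2.1, hc.2⟩⟩

theorem exists_ultra (a : ZFSet.{u}) : ∃ U : Ultrafilter ZFSet.{u}, a ∈ S.L →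
    ∀ Y : Set ZFSet.{u}, a ∈ Y → (∀ d ∈ S.top a, Y ∈ S.Φ a d) →
      {W | S.Leg a W ∧ ∀ c ∈ W, c ∈ Y} ∈ U := by
  by_cases ha : a ∈ S.L
  swap
  · exact ⟨pure ∅, fun h => (ha h).elim⟩
  let G : Filter ZFSet.{u} :=
    { sets := {B | ∃ Y : Set ZFSet.{u}, a ∈ Y ∧ (∀ d ∈ S.top a, Y ∈ S.Φ a d) ∧
        {W | S.Leg a W ∧ ∀ c ∈ W, c ∈ Y} ⊆ B}
      univ_sets := ⟨univ, trivial, fun _ _ => univ_mem, subset_univ _⟩
      sets_of_superset := fun ⟨Y, h1, h2, h3⟩ h => ⟨Y, h1, h2, h3.trans h⟩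
      inter_sets := fun ⟨Y, h1, h2, h3⟩ ⟨Y', h1', h2', h3'⟩ => ⟨Y ∩ Y', ⟨h1, h1'⟩,
        fun d hd => inter_mem (h2 d hd) (h2' d hd), fun W hW =>
          ⟨h3 ⟨hW.1, fun c hc => (hW.2 c hc).1⟩, h3' ⟨hW.1, fun c hc => (hW.2 c hc).2⟩⟩⟩ }
  have : G.NeBot := ⟨fun hb => by
    obtain ⟨Y, h1, h2, h3⟩ := empty_mem_iff_bot.2 hb
    exact h3 ⟨S.leg_sep ha h1 h2, fun c hc => (ZFSet.mem_sep.1 hc).2.2⟩⟩
  exact ⟨Ultrafilter.of G, fun _ Y h1 h2 => Ultrafilter.of_le G ⟨Y, h1, h2, subset_rfl⟩⟩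

/-- The ultrafilter on the admissible sets below `a` that contains all cones. -/
noncomputable def V (a : ZFSet.{u}) : Ultrafilter ZFSet.{u} := (S.exists_ultra a).choose

theorem cone {a : ZFSet.{u}} (ha : a ∈ S.L) {Y : Set ZFSet.{u}} (h1 : a ∈ Y)
    (h2 : ∀ d ∈ S.top a, Y ∈ S.Φ a d) : {W | S.Leg a W ∧ ∀ c ∈ W, c ∈ Y} ∈ S.V a :=
  (S.exists_ultra a).choose_spec ha Y h1 h2

/-- The nodes of the next level. -/
def nextL : ZFSet.{u} := (S.L.prod (powerset S.L)).sep fun b => S.Leg (fst b) (snd b)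

theorem mem_nextL {b : ZFSet.{u}} : b ∈ S.nextL ↔ ∃ a W, b = pair a W ∧ S.Leg a W := by
  rw [nextL, ZFSet.mem_sep]
  constructor
  · rintro ⟨h1, h2⟩
    obtain ⟨a, -, W, -, rfl⟩ := ZFSet.mem_prod.1 h1
    exact ⟨a, W, rfl, by simpa using h2⟩
  · rintro ⟨a, W, rfl, h⟩
    exact ⟨pair_mem_prod.2 ⟨h.1, mem_powerset.2 fun c hc => (h.2.2.1 c hc).1⟩, by simpa using h⟩

/-- The next level. -/
noncomputable def next : Stage.{u} where
  L := S.nextL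
  top := snd
  le a b := S.le (fst a) (fst b) ∧ snd a ⊆ snd b
  Φ _ d := Filter.map (pair d) (S.V d)
  refl a := ⟨S.refl _, fun _ h => h⟩
  trans _ _ _ h h' := ⟨S.trans _ _ _ h.1 h'.1, fun _ hz => h'.2 (h.2 hz)⟩
  par_mem b hb := by
    obtain ⟨a, W, rfl, h⟩ := S.mem_nextL.1 hb
    simpa using h.2.1
  top_mono _ _ h := h.2
  Φ_mono _ _ _ _ := le_rfl
  key b hb d hd := by
    obtain ⟨a, Z, rfl, h⟩ := S.mem_nextL.1 hb
    rw [snd_pair] at hd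
    obtain ⟨h1, h2⟩ := h.2.2.1 d hd
    refine Filter.mem_map.2 (mem_of_superset (S.cone h1 (Y := {c | c ∈ Z}) hd fun e he =>
      S.Φ_mono _ _ _ h2 (h.2.2.2 e (S.top_mono _ _ h2 he))) fun W hW => ?_)
    exact ⟨S.mem_nextL.2 ⟨d, W, rfl, hW.1⟩, by simpa using ⟨h2, hW.2⟩, fst_pair _ _⟩

end Stage

/-- The nodes of the first level. -/
noncomputable def L0 : ZFSet.{u} := ZFSet.range fun t : {t : ℕ × Cond // t.1 ∈ t.2.X} => nd t.1.1 t.1.2

theorem mem_L0 {a : ZFSet.{u}} : a ∈ L0 ↔ ∃ x, ∃ p : Cond, x ∈ p.X ∧ a = nd x p := by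
  rw [L0, ZFSet.mem_range]
  exact ⟨fun ⟨t, h⟩ => ⟨_, _, t.2, h.symm⟩, fun ⟨x, p, h, h'⟩ => ⟨⟨(x, p), h⟩, h'.symm⟩⟩

/-- The first level. -/
noncomputable def base : Stage.{u} where
  L := L0
  top a := encS (cnd a).X
  le a b := cnd a ≤ cnd b
  Φ a d := Filter.map (nd (num d)) (fx (num d) ⊓ 𝓟 {q | q ≤ cnd a})
  refl _ := le_rfl
  trans _ _ _ := le_trans
  par_mem a ha := by
    obtain ⟨x, p, h, rfl⟩ := mem_L0.1 ha
    simpa [nat_mem_encS] using h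
  top_mono a b h z hz := by
    obtain ⟨n, hn, rfl⟩ := mem_encS.1 hz
    exact nat_mem_encS.2 (h.1 hn)
  Φ_mono a b d h := map_mono (inf_le_inf_left _ (principal_mono.2 fun _ hq => le_trans hq h))
  key a _ d hd := by
    obtain ⟨x, -, rfl⟩ := mem_encS.1 hd
    rw [num_nat]
    refine Filter.mem_map.2 (mem_inf_principal.2 (mem_of_superset (fx_mem x) fun q hq hq' => ?_))
    exact ⟨mem_L0.2 ⟨x, q, hq, rfl⟩, by simpa using hq', fst_nd _ _⟩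

/-- The levels of the tree. -/
noncomputable def stage : ℕ → Stage.{u}
  | 0 => base
  | k + 1 => (stage k).next

theorem mem_Φ_zero {a : ZFSet.{u}} {x : ℕ} {Y : Set ZFSet.{u}} :
    Y ∈ (stage 0).Φ a (nat x) ↔ {q | q ≤ cnd a → nd x q ∈ Y} ∈ fx x := by
  show Y ∈ Filter.map (nd (num (nat x))) (fx (num (nat x)) ⊓ 𝓟 {q | q ≤ cnd a}) ↔ _
  rw [num_nat, Filter.mem_map, mem_inf_principal]
  rfl

theorem mem_Φ_succ {k : ℕ} {a d : ZFSet.{u}} {Y : Set ZFSet.{u}} :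
    Y ∈ (stage (k + 1)).Φ a d ↔ {W | pair d W ∈ Y} ∈ (stage k).V d := Iff.rfl

/-- Branches through the tree. -/
def Br (f : ℕ → ZFSet.{u}) : Prop := ∀ k, f k ∈ (stage k).L ∧ fst (f (k + 1)) = f k

/-- The order on branches. -/
def BLe (f g : ℕ → ZFSet.{u}) : Prop := ∀ k, (stage k).le (f k) (g k)

theorem BLe.refl (f : ℕ → ZFSet.{u}) : BLe f f := fun k => (stage k).refl _

theorem BLe.trans {f g h : ℕ → ZFSet.{u}} (h1 : BLe f g) (h2 : BLe g h) : BLe f h :=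
  fun k => (stage k).trans _ _ _ (h1 k) (h2 k)

variable {f g : ℕ → ZFSet.{u}}

theorem Br.eq_pair (hf : Br f) (k : ℕ) : f (k + 1) = pair (f k) (snd (f (k + 1))) := by
  obtain ⟨a, W, h, -⟩ := (stage k).mem_nextL.1 (hf (k + 1)).1
  rw [← (hf k).2, h, fst_pair, snd_pair]

theorem Br.leg (hf : Br f) (k : ℕ) : (stage k).Leg (f k) (snd (f (k + 1))) := by
  obtain ⟨a, W, h, h'⟩ := (stage k).mem_nextL.1 (hf (k + 1)).1
  rwa [← (hf k).2, h, fst_pair, snd_pair]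

theorem Br.mem_top (hf : Br f) (h : BLe f g) (k : ℕ) : f k ∈ snd (g (k + 1)) :=
  (h (k + 1)).2 (hf.leg k).2.1

theorem Br.le_down (hf : Br f) (hg : Br g) {k : ℕ} (h : (stage k).le (f k) (g k)) :
    ∀ j ≤ k, (stage j).le (f j) (g j) := by
  induction k with
  | zero => intro j hj; rwa [Nat.le_zero.1 hj]
  | succ k ih =>
    intro j hj
    rcases Nat.le_succ_iff.1 hj with hj | rfl
    · exact ih ((hf k).2 ▸ (hg k).2 ▸ h.1) j hj
    · exact h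

theorem Br.eq_down (hf : Br f) (hg : Br g) {k : ℕ} (h : f k = g k) : ∀ j ≤ k, f j = g j := by
  induction k with
  | zero => intro j hj; rwa [Nat.le_zero.1 hj]
  | succ k ih =>
    intro j hj
    rcases Nat.le_succ_iff.1 hj with hj | rfl
    · exact ih (by rw [← (hf k).2, ← (hg k).2, h]) j hj
    · exact h

theorem Br.anc (hf : Br f) (k j : ℕ) : fst^[j] (f (k + j)) = f k := by
  induction j with
  | zero => rfl
  | succ j ih => rw [Function.iterate_succ_apply, ← Nat.add_assoc, (hf (k + j)).2, ih]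

/-- A strategy assigns to every node a large set of continuations. -/
def Strat (σ : ℕ → ZFSet.{u} → Set ZFSet.{u}) : Prop :=
  ∀ k, ∀ d ∈ (stage k).L, σ k d ∈ (stage k).V d

/-- The branch follows the strategy from level `k0` on. -/
def Obey (σ : ℕ → ZFSet.{u} → Set ZFSet.{u}) (k0 : ℕ) (f : ℕ → ZFSet.{u}) : Prop :=
  ∀ k, k0 ≤ k → snd (f (k + 1)) ∈ σ k (f k)

theorem exists_glue (k0 : ℕ) (σ : ZFSet.{u} → ℕ → ZFSet.{u} → Set ZFSet.{u})
    (h : ∀ a, Strat (σ a)) : ∃ τ, Strat τ ∧ ∀ f, Br f → Obey τ k0 f → Obey (σ (f k0)) k0 f := by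
  refine ⟨fun k d => σ (fst^[k - k0] d) k d, fun k d hd => h _ k d hd, fun f hf ho k hk => ?_⟩
  obtain ⟨j, rfl⟩ := Nat.exists_eq_add_of_le hk
  have := ho _ hk
  simp only [Nat.add_sub_cancel_left, hf.anc] at this
  exact this

/-- Extension of a finite chain of nodes to a branch below which everything follows the given
strategy. -/
theorem exists_ext (c : ℕ → ZFSet.{u}) (k0 : ℕ) (hc : ∀ k ≤ k0, c k ∈ (stage k).L)
    (hc' : ∀ k < k0, fst (c (k + 1)) = c k) {τ : ℕ → ZFSet.{u} → Set ZFSet.{u}} (hτ : Strat τ)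
    {Y0 : Set ZFSet.{u}} (h1 : c k0 ∈ Y0) (h2 : ∀ d ∈ (stage k0).top (c k0), Y0 ∈ (stage k0).Φ (c k0) d) :
    ∃ h, Br h ∧ (∀ k ≤ k0, h k = c k) ∧ ∀ f, Br f → BLe f h → f k0 ∈ Y0 ∧ Obey τ k0 f := by
  let Y : ℕ → Set ZFSet.{u} := fun j => match j with
    | 0 => Y0
    | j + 1 => {b | snd b ∈ τ (k0 + j) (fst b)}
  let I : ℕ → ZFSet.{u} → Prop := fun j a => a ∈ (stage (k0 + j)).L ∧ a ∈ Y j ∧
    ∀ d ∈ (stage (k0 + j)).top a, Y j ∈ (stage (k0 + j)).Φ a d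
  have step : ∀ j a, I j a → ∃ W, I (j + 1) (pair a W) ∧ ∀ c ∈ W, c ∈ Y j := by
    rintro j a ⟨h3, h4, h5⟩
    obtain ⟨W, ⟨h6, h7⟩, h8⟩ := Ultrafilter.nonempty_of_mem
      (inter_mem ((stage (k0 + j)).cone h3 h4 h5) (hτ _ a h3))
    refine ⟨W, ⟨(stage (k0 + j)).mem_nextL.2 ⟨a, W, rfl, h6⟩, by simpa [Y] using h8,
      fun d hd => mem_Φ_succ.2 ?_⟩, h7⟩
    have hd' : d ∈ W := by simpa using (show d ∈ snd (pair a W) from hd)
    simpa [Y] using hτ _ d (h6.2.2.1 d hd').1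
  choose nx hnx using step
  let b : ∀ j, {a // I j a} := fun j => Nat.rec ⟨c k0, hc k0 le_rfl, h1, h2⟩
    (fun j a => ⟨pair a.1 (nx j a.1 a.2), (hnx j a.1 a.2).1⟩) j
  have hb : ∀ j, (b (j + 1)).1 = pair (b j).1 (nx j (b j).1 (b j).2) := fun _ => rfl
  let h : ℕ → ZFSet.{u} := fun k => if k ≤ k0 then c k else (b (k - k0)).1
  have hh : ∀ j, h (k0 + j) = (b j).1 := by
    intro j
    rcases j with _ | j
    · simp only [h, Nat.add_zero, le_refl, if_true]; rfl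
    · simp only [h, if_neg (show ¬ k0 + (j + 1) ≤ k0 by omega)]
      exact congrArg (fun i => (b i).1) (Nat.add_sub_cancel_left _ _)
  have hl : ∀ k ≤ k0, h k = c k := fun k hk => if_pos hk
  have key : ∀ f, Br f → BLe f h → ∀ j, f (k0 + j) ∈ Y j := by
    intro f hf hfh j
    have h3 := hf.mem_top hfh (k0 + j)
    rw [Nat.add_assoc, hh, hb, snd_pair] at h3
    exact (hnx j _ _).2 _ h3
  refine ⟨h, fun k => ?_, hl, fun f hf hfh => ⟨key f hf hfh 0, fun k hk => ?_⟩⟩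
  · rcases lt_or_ge k k0 with hk | hk
    · rw [hl k hk.le, hl (k + 1) hk]
      exact ⟨hc k hk.le, hc' k hk⟩
    · obtain ⟨j, rfl⟩ := Nat.exists_eq_add_of_le hk
      rw [Nat.add_assoc, hh, hh, hb, fst_pair]
      exact ⟨(b j).2.1, rfl⟩
  · obtain ⟨j, rfl⟩ := Nat.exists_eq_add_of_le hk
    have h3 : snd (f (k0 + j + 1)) ∈ τ (k0 + j) (fst (f (k0 + j + 1))) := key f hf hfh (j + 1)
    rwa [(hf _).2] at h3

/-- The strategy that stays inside the tree coded by `g`. -/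
def stay (g : ℕ → ZFSet.{u}) (k : ℕ) (d : ZFSet.{u}) : Set ZFSet.{u} :=
  {W | d ∈ snd (g (k + 1)) → pair d W ∈ snd (g (k + 2))}

theorem Br.strat_stay (hg : Br g) : Strat (stay g) := by
  intro k d _
  by_cases h : d ∈ snd (g (k + 1))
  · exact mem_of_superset (mem_Φ_succ.1 ((hg.leg (k + 1)).2.2.2 d h)) fun W hW _ => hW
  · exact univ_mem' fun W h' => (h h').elim

theorem Br.le_of_obey (hf : Br f) (hg : Br g) {k0 : ℕ} (h1 : f k0 ∈ snd (g (k0 + 1)))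
    (h2 : Obey (stay g) k0 f) : BLe f g := by
  have key : ∀ k, k0 ≤ k → f k ∈ snd (g (k + 1)) := by
    intro k hk
    induction hk with
    | refl => exact h1
    | @step k hk ih => rw [hf.eq_pair k]; exact h2 k hk ih
  intro k
  rcases le_total k k0 with hk | hk
  · exact hf.le_down hg ((hg.leg k0).2.2.1 _ h1).2 k hk
  · exact ((hg.leg k).2.2.1 _ (key k hk)).2

theorem Br.top_large (hg : Br g) {k : ℕ} {a : ZFSet.{u}} (ha : (stage k).le a (g k)) :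
    ∀ d ∈ (stage k).top a, {c | c ∈ snd (g (k + 1))} ∈ (stage k).Φ a d := fun d hd =>
  (stage k).Φ_mono _ _ _ ha ((hg.leg k).2.2.2 d ((stage k).top_mono _ _ ha hd))

theorem Strat.inter {σ τ : ℕ → ZFSet.{u} → Set ZFSet.{u}} (h1 : Strat σ) (h2 : Strat τ) :
    Strat fun k d => σ k d ∩ τ k d := fun k d hd => inter_mem (h1 k d hd) (h2 k d hd)

/-- The extension lemma below a given branch. -/
theorem Br.exists_ext (hg : Br g) (c : ℕ → ZFSet.{u}) (k0 : ℕ) (hc : ∀ k ≤ k0, c k ∈ (stage k).L)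
    (hc' : ∀ k < k0, fst (c (k + 1)) = c k) (hcg : c k0 ∈ snd (g (k0 + 1)))
    {τ : ℕ → ZFSet.{u} → Set ZFSet.{u}} (hτ : Strat τ) {Y0 : Set ZFSet.{u}} (h1 : c k0 ∈ Y0)
    (h2 : ∀ d ∈ (stage k0).top (c k0), Y0 ∈ (stage k0).Φ (c k0) d) :
    ∃ h, Br h ∧ BLe h g ∧ (∀ k ≤ k0, h k = c k) ∧
      ∀ f, Br f → BLe f h → f k0 ∈ Y0 ∧ Obey τ k0 f := by
  obtain ⟨h, h3, h4, h5⟩ := MP_dbfd73_lc.exists_ext c k0 hc hc' (hτ.inter hg.strat_stay)
    (Y0 := Y0 ∩ {c | c ∈ snd (g (k0 + 1))}) ⟨h1, hcg⟩ fun d hd =>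
      inter_mem (h2 d hd) (hg.top_large ((hg.leg k0).2.2.1 _ hcg).2 d hd)
  exact ⟨h, h3, h3.le_of_obey hg (h5 h h3 (BLe.refl h)).1.2
    fun k hk => ((h5 h h3 (BLe.refl h)).2 k hk).2, h4,
    fun f hf hfh => ⟨(h5 f hf hfh).1.1, fun k hk => ((h5 f hf hfh).2 k hk).1⟩⟩

end Pool.Agent.P.MP_dbfd73_lc
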